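import Pool.Agent.Helper7.AC.Defs

/-! MP_29fd35_lc, packet P7: the predicates of the construction are primitive recursive. -/

set_option autoImplicit false

namespace Pool.Agent.Helper7.AC

open Nat.Partrec (Code)
open Denumerable Encodable

private theorem dp_sum {α : Type*} [Primcodable α] {f : α → ℕ → ℕ} {g : α → ℕ}
    (hf : Primrec₂ f) (hg : Primrec g) :
    Primrec fun a => ∑ x ∈ Finset.range (g a), f a x := by
  have h : Primrec fun a => (Nat.rec (motive := fun _ => ℕ) 0 (fun x acc => acc + f a x) (g a) : ℕ) :=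
    Primrec.nat_rec' hg (Primrec.const 0)
      (Primrec.nat_add.comp (Primrec.snd.comp Primrec.snd)
        (hf.comp Primrec.fst (Primrec.fst.comp Primrec.snd))).to₂
  refine h.of_eq fun a => ?_
  induction g a with
  | zero => simp
  | succ n ih => rw [Finset.sum_range_succ, ← ih]

private theorem dp_pow : Primrec₂ (fun a b : ℕ => a ^ b) :=
  Primrec₂.unpaired'.1 Nat.Primrec.pow

private theorem dp_pow2 {α : Type*} [Primcodable α] {g : α → ℕ} (hg : Primrec g) :
    Primrec fun a => 2 ^ g a :=
  dp_pow.comp (Primrec.const 2) hg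

private theorem dp_exists {α : Type*} [Primcodable α] {R : ℕ → α → Prop} {g : α → ℕ}
    (hR : PrimrecRel R) (hg : Primrec g) : PrimrecPred fun a => ∃ k < g a, R k a :=
  ((PrimrecRel.exists_mem_list hR).comp (Primrec.list_range.comp hg) Primrec.id).of_eq
    fun a => by simp

/-- `V` is primitive recursive, as a predicate of `((e, τ), n)` and `m`. -/
private theorem dp_V : PrimrecPred fun p : ℕ × List Bool × ℕ × ℕ =>
    V (ofNat Code p.1) p.2.1 p.2.2.1 p.2.2.2 := by
  have hR : PrimrecRel fun (k : ℕ) (p : ℕ × List Bool × ℕ × ℕ) =>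
      Code.evaln p.2.1.length (ofNat Code p.1) (Nat.pair (encode (p.2.1.take k)) p.2.2.1)
        = some p.2.2.2 := by
    refine Primrec.eq.comp ?_ ?_
    · refine Code.primrec_evaln.comp (Primrec.pair (Primrec.pair ?_ ?_) ?_)
      · exact Primrec.list_length.comp (Primrec.fst.comp (Primrec.snd.comp Primrec.snd))
      · exact (Primrec.ofNat Code).comp (Primrec.fst.comp Primrec.snd)
      · refine Primrec₂.natPair.comp ?_ ?_
        · exact Primrec.encode.comp (Primrec.list_take.comp Primrec.fst
            (Primrec.fst.comp (Primrec.snd.comp Primrec.snd)))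
        · exact Primrec.fst.comp (Primrec.snd.comp (Primrec.snd.comp Primrec.snd))
    · exact Primrec.option_some.comp
        (Primrec.snd.comp (Primrec.snd.comp (Primrec.snd.comp Primrec.snd)))
  refine (dp_exists hR (Primrec.succ.comp
    (Primrec.list_length.comp (Primrec.fst.comp Primrec.snd)))).of_eq fun p => ?_
  unfold V
  simp only [Nat.succ_eq_add_one, Nat.lt_succ_iff]

theorem vDec : VDec := by
  classical
  exact ⟨fun e τ n m => decide (V (ofNat Code e) τ n m), dp_V.decide, fun e τ n m => by simp⟩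

/-- `VD` is primitive recursive. -/
private theorem dp_VD : PrimrecPred fun p : ℕ × List Bool × ℕ =>
    VD (ofNat Code p.1) p.2.1 p.2.2 := by
  have hR : PrimrecRel fun (k : ℕ) (p : ℕ × List Bool × ℕ) =>
      (Code.evaln p.2.1.length (ofNat Code p.1) (Nat.pair (encode (p.2.1.take k)) p.2.2)).isSome
        = true := by
    refine Primrec.eq.comp ?_ (Primrec.const true)
    refine Primrec.option_isSome.comp ?_
    refine Code.primrec_evaln.comp (Primrec.pair (Primrec.pair ?_ ?_) ?_)
    · exact Primrec.list_length.comp (Primrec.fst.comp (Primrec.snd.comp Primrec.snd))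
    · exact (Primrec.ofNat Code).comp (Primrec.fst.comp Primrec.snd)
    · refine Primrec₂.natPair.comp ?_ ?_
      · exact Primrec.encode.comp (Primrec.list_take.comp Primrec.fst
          (Primrec.fst.comp (Primrec.snd.comp Primrec.snd)))
      · exact Primrec.snd.comp (Primrec.snd.comp Primrec.snd)
  refine (dp_exists hR (Primrec.succ.comp
    (Primrec.list_length.comp (Primrec.fst.comp Primrec.snd)))).of_eq fun p => ?_
  unfold VD V
  simp only [Nat.succ_eq_add_one, Nat.lt_succ_iff, Option.isSome_iff_exists]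
  constructor
  · rintro ⟨k, hk, m, hm⟩
    exact ⟨m, k, hk, hm⟩
  · rintro ⟨m, k, hk, hm⟩
    exact ⟨k, hk, m, hm⟩

/-! ### Free -/

/-- The weight scaled by a power of two. -/
private def wgt (τ : List Bool) (a M : ℕ) : ℕ :=
  ∑ x ∈ Finset.range τ.length,
    if a ≤ x ∧ τ.getD x false = true then 2 ^ (M - (Nat.unpair x).1) else 0

private theorem dp_half_pow (M r : ℕ) (h : r ≤ M) : (1 / 2 : ℝ) ^ r * 2 ^ M = 2 ^ (M - r) := by
  have h1 : (2 : ℝ) ^ M = 2 ^ r * 2 ^ (M - r) := by
    rw [← pow_add, Nat.add_sub_cancel' h]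
  rw [h1, ← mul_assoc, ← mul_pow]
  norm_num

private theorem dp_S_eq (τ : List Bool) (a M : ℕ) (hM : τ.length ≤ M) :
    S (ext τ) a τ.length * 2 ^ M = (wgt τ a M : ℝ) := by
  unfold S wgt
  rw [Finset.sum_mul, Nat.cast_sum]
  have : Finset.Ico a τ.length = (Finset.range τ.length).filter (fun x => a ≤ x) := by
    ext x
    simp only [Finset.mem_Ico, Finset.mem_filter, Finset.mem_range]
    exact and_comm
  rw [this, Finset.sum_filter]
  refine Finset.sum_congr rfl fun x hx => ?_
  rw [Finset.mem_range] at hx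
  by_cases h1 : a ≤ x
  · by_cases h2 : τ.getD x false = true
    · have h3 : ext τ x = true := h2
      rw [if_pos h1, if_pos h3, if_pos (And.intro h1 h2),
        dp_half_pow _ _ (((Nat.unpair_left_le x).trans hx.le).trans hM)]
      push_cast
      rfl
    · have h3 : ¬ ext τ x = true := h2
      have h4 : ¬ (a ≤ x ∧ τ.getD x false = true) := fun h => h2 h.2
      rw [if_pos h1, if_neg h3, if_neg h4]
      simp
  · rw [if_neg h1, if_neg (fun h => h1 h.1)]
    simp

private theorem dp_Free_iff (σ τ : List Bool) (e : ℕ) :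
    Free σ τ e ↔ τ.take σ.length = σ ∧
      wgt τ σ.length (τ.length + (e + 3)) < 2 ^ τ.length := by
  unfold Free
  have h1 : σ <+: τ ↔ τ.take σ.length = σ := by
    rw [List.prefix_iff_eq_take]
    exact eq_comm
  rw [h1]
  refine and_congr_right fun _ => ?_
  have h2 := dp_S_eq τ σ.length (τ.length + (e + 3)) (Nat.le_add_right _ _)
  have hpos : (0 : ℝ) < 2 ^ (τ.length + (e + 3)) := by positivity
  have h3 := dp_half_pow (τ.length + (e + 3)) (e + 3) (Nat.le_add_left _ _)
  rw [Nat.add_sub_cancel] at h3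
  rw [← mul_lt_mul_iff_left₀ hpos, h2, h3]
  constructor
  · intro h
    exact_mod_cast h
  · intro h
    exact_mod_cast h

theorem freeDec : FreeDec := by
  classical
  have hw : Primrec fun p : List Bool × List Bool × ℕ =>
      wgt p.2.1 p.1.length (p.2.1.length + (p.2.2 + 3)) := by
    unfold wgt
    refine dp_sum (f := fun (p : List Bool × List Bool × ℕ) (x : ℕ) =>
      if p.1.length ≤ x ∧ p.2.1.getD x false = true then
        2 ^ (p.2.1.length + (p.2.2 + 3) - (Nat.unpair x).1) else 0) ?_
      (Primrec.list_length.comp (Primrec.fst.comp Primrec.snd))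
    refine Primrec.ite (PrimrecPred.and ?_ ?_) ?_ (Primrec.const 0)
    · exact Primrec.nat_le.comp (Primrec.list_length.comp (Primrec.fst.comp Primrec.fst))
        Primrec.snd
    · exact Primrec.eq.comp ((Primrec.list_getD false).comp
        (Primrec.fst.comp (Primrec.snd.comp Primrec.fst)) Primrec.snd) (Primrec.const true)
    · refine dp_pow2 (Primrec.nat_sub.comp ?_ (Primrec.fst.comp (Primrec.unpair.comp Primrec.snd)))
      exact Primrec.nat_add.comp
        (Primrec.list_length.comp (Primrec.fst.comp (Primrec.snd.comp Primrec.fst)))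
        (Primrec.nat_add.comp (Primrec.snd.comp (Primrec.snd.comp Primrec.fst)) (Primrec.const 3))
  have h : PrimrecPred fun p : List Bool × List Bool × ℕ => Free p.1 p.2.1 p.2.2 := by
    refine PrimrecPred.of_eq (p := fun p : List Bool × List Bool × ℕ =>
      p.2.1.take p.1.length = p.1 ∧
      wgt p.2.1 p.1.length (p.2.1.length + (p.2.2 + 3)) < 2 ^ p.2.1.length)
      (PrimrecPred.and ?_ ?_) fun p => (dp_Free_iff _ _ _).symm
    · exact Primrec.eq.comp (Primrec.list_take.comp (Primrec.list_length.comp Primrec.fst)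
        (Primrec.fst.comp Primrec.snd)) Primrec.fst
    · exact Primrec.nat_lt.comp hw
        (dp_pow2 (Primrec.list_length.comp (Primrec.fst.comp Primrec.snd)))
  exact ⟨fun σ τ e => decide (Free σ τ e), h.decide, fun σ τ e => by simp⟩

/-! ### Good -/

/-- The budget scaled by a power of two. -/
private def bud (l : List ℕ) (i M : ℕ) : ℕ :=
  l.foldr (fun p acc => (if ti p = i then 2 ^ (M - tk p) else 0) + acc) 0

private theorem dp_tk_le (p : ℕ) : tk p ≤ p :=
  (Nat.unpair_right_le _).trans (Nat.unpair_right_le _)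

private theorem dp_bud_eq (l : List ℕ) (i M : ℕ) (hM : ∀ p ∈ l, p ≤ M) :
    budget l i * 2 ^ M = (bud l i M : ℝ) := by
  induction l with
  | nil => simp [budget, bud]
  | cons a l ih =>
    have ih' := ih fun p hp => hM p (List.mem_cons_of_mem _ hp)
    have ha := hM a List.mem_cons_self
    have h1 : budget (a :: l) i = (if ti a = i then (1/2 : ℝ) ^ tk a else 0) + budget l i := by
      simp [budget]
    have h2 : bud (a :: l) i M = (if ti a = i then 2 ^ (M - tk a) else 0) + bud l i M := by
      simp [bud]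
    rw [h1, h2, add_mul, ih']
    push_cast
    congr 1
    split
    · exact dp_half_pow _ _ ((dp_tk_le a).trans ha)
    · simp

private def lsum (l : List ℕ) : ℕ := l.foldr (fun p acc => p + acc) 0

private theorem dp_le_lsum (l : List ℕ) : ∀ p ∈ l, p ≤ lsum l := by
  induction l with
  | nil => simp
  | cons a l ih =>
    intro p hp
    have h1 : lsum (a :: l) = a + lsum l := rfl
    rcases List.mem_cons.1 hp with rfl | hp
    · omega
    · have := ih p hp
      omega

private theorem dp_budget_iff (l : List ℕ) (p : ℕ) :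
    budget l (ti p) + (1 / 2 : ℝ) ^ tk p ≤ 2 ↔
      bud l (ti p) (p + lsum l) + 2 ^ (p + lsum l - tk p) ≤ 2 ^ (p + lsum l + 1) := by
  have h1 := dp_bud_eq l (ti p) (p + lsum l) fun q hq => (dp_le_lsum l q hq).trans (by omega)
  have h2 := dp_half_pow (p + lsum l) (tk p) ((dp_tk_le p).trans (by omega))
  have hpos : (0 : ℝ) < 2 ^ (p + lsum l) := by positivity
  rw [← mul_le_mul_iff_left₀ hpos, add_mul, h1, h2, ← pow_succ']
  constructor
  · intro h
    exact_mod_cast h
  · intro h
    exact_mod_cast h

private theorem dp_ti : Primrec ti := Primrec.fst.comp Primrec.unpair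
private theorem dp_tq : Primrec tq := Primrec.snd.comp Primrec.unpair
private theorem dp_tk : Primrec tk := Primrec.snd.comp (Primrec.unpair.comp dp_tq)

private theorem dp_lsum : Primrec lsum :=
  Primrec.list_foldr Primrec.id (Primrec.const 0)
    (Primrec.nat_add.comp (Primrec.fst.comp Primrec.snd) (Primrec.snd.comp Primrec.snd)).to₂

private theorem dp_bud : Primrec fun p : List ℕ × ℕ × ℕ => bud p.1 p.2.1 p.2.2 := by
  unfold bud
  refine Primrec.list_foldr (h := fun (p : List ℕ × ℕ × ℕ) (q : ℕ × ℕ) =>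
    (if ti q.1 = p.2.1 then 2 ^ (p.2.2 - tk q.1) else 0) + q.2) Primrec.fst (Primrec.const 0) ?_
  refine Primrec.nat_add.comp (Primrec.ite ?_ ?_ (Primrec.const 0))
    (Primrec.snd.comp Primrec.snd)
  · exact Primrec.eq.comp (dp_ti.comp (Primrec.fst.comp Primrec.snd))
      (Primrec.fst.comp (Primrec.snd.comp Primrec.fst))
  · exact dp_pow2 (Primrec.nat_sub.comp (Primrec.snd.comp (Primrec.snd.comp Primrec.fst))
      (dp_tk.comp (Primrec.fst.comp Primrec.snd)))

theorem goodDec : GoodDec := by
  classical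
  have hM : Primrec fun p : List Bool × List ℕ × ℕ => p.2.2 + lsum p.2.1 :=
    Primrec.nat_add.comp (Primrec.snd.comp Primrec.snd)
      (dp_lsum.comp (Primrec.fst.comp Primrec.snd))
  have hp : Primrec fun p : List Bool × List ℕ × ℕ => p.2.2 := Primrec.snd.comp Primrec.snd
  have hl : Primrec fun p : List Bool × List ℕ × ℕ => p.2.1 := Primrec.fst.comp Primrec.snd
  have h : PrimrecPred fun p : List Bool × List ℕ × ℕ => Good p.1 p.2.1 p.2.2 := by
    refine PrimrecPred.of_eq (p := fun p : List Bool × List ℕ × ℕ =>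
      ¬ (∃ a ∈ p.2.1, a = p.2.2) ∧ VD (ofNat Code (ti p.2.2)) p.1 (tq p.2.2) ∧
      bud p.2.1 (ti p.2.2) (p.2.2 + lsum p.2.1) + 2 ^ (p.2.2 + lsum p.2.1 - tk p.2.2) ≤
        2 ^ (p.2.2 + lsum p.2.1 + 1))
      (PrimrecPred.and ?_ (PrimrecPred.and ?_ ?_)) fun p => ?_
    · exact PrimrecPred.not ((PrimrecRel.exists_mem_list (R := fun a b : ℕ => a = b)
        Primrec.eq).comp hl hp)
    · exact dp_VD.comp (Primrec.pair (dp_ti.comp hp) (Primrec.pair Primrec.fst (dp_tq.comp hp)))
    · refine Primrec.nat_le.comp (Primrec.nat_add.comp ?_ ?_) ?_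
      · exact dp_bud.comp (Primrec.pair hl (Primrec.pair (dp_ti.comp hp) hM))
      · exact dp_pow2 (Primrec.nat_sub.comp hM (dp_tk.comp hp))
      · exact dp_pow2 (Primrec.succ.comp hM)
    · unfold Good
      rw [dp_budget_iff]
      simp
  exact ⟨fun σ l p => decide (Good σ l p), h.decide, fun σ l p => by simp⟩

end Pool.Agent.Helper7.AC
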