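import Pool.Agent.Helper7.AC.Defs

/-! MP_29fd35_lc, packet P3: the limit of a run does not compute `A` through a c.e. relation. -/

set_option autoImplicit false

namespace Pool.Agent.Helper7.AC

open Nat.Partrec (Code)
open Denumerable Encodable

private theorem ca_pre_length (X : ℕ → Bool) (k : ℕ) : (pre X k).length = k := by
  simp [pre]

private theorem ca_pre_take (X : ℕ → Bool) {j k : ℕ} (h : j ≤ k) :
    (pre X k).take j = pre X j := by
  simp only [pre, ← List.map_take, List.take_range, Nat.min_eq_left h]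

private theorem ca_pre_prefix (X : ℕ → Bool) {j k : ℕ} (h : j ≤ k) : pre X j <+: pre X k := by
  rw [← ca_pre_take X h]
  exact List.take_prefix _ _

private theorem ca_prefix_pre {X : ℕ → Bool} {k : ℕ} {ρ : List Bool} (h : ρ <+: pre X k) :
    ρ = pre X ρ.length := by
  have h1 : ρ.length ≤ k := by
    have := h.length_le
    rwa [ca_pre_length] at this
  rw [List.prefix_iff_eq_take] at h
  rw [ca_pre_take X h1] at h
  exact h

private theorem ca_ext_pre (X : ℕ → Bool) (k x : ℕ) (hx : x < k) : ext (pre X k) x = X x := by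
  simp [ext, pre, List.getD, hx]

private theorem ca_V_mono {c : Code} {σ τ : List Bool} {n m : ℕ} (h : σ <+: τ)
    (hV : V c σ n m) : V c τ n m := by
  obtain ⟨k, hk, he⟩ := hV
  refine ⟨k, hk.trans h.length_le, ?_⟩
  have : τ.take k = σ.take k := by
    obtain ⟨r, rfl⟩ := h
    rw [List.take_append_of_le_length hk]
  rw [this]
  have h2 := Code.evaln_mono h.length_le (Option.mem_def.2 he)
  exact Option.mem_def.1 h2

private theorem ca_S_nonneg (X : ℕ → Bool) (a b : ℕ) : 0 ≤ S X a b := by
  unfold S
  refine Finset.sum_nonneg fun x _ => ?_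
  split
  · positivity
  · exact le_rfl

private theorem ca_S_add (X : ℕ → Bool) {a b c : ℕ} (h1 : a ≤ b) (h2 : b ≤ c) :
    S X a b + S X b c = S X a c := by
  unfold S
  exact Finset.sum_Ico_consecutive _ h1 h2

private theorem ca_run_length {A O : ℕ → Bool} {st : ℕ → State} (h : Run A O st) (s : ℕ) :
    s ≤ (st s).1.length := by
  induction s with
  | zero => exact Nat.zero_le _
  | succ s ih =>
    obtain ⟨σ', σ'', a', p', hA, hB, hy⟩ := h.step s
    have h1 : (st s).1.length ≤ σ'.length := by
      rcases hA with ⟨_, ⟨n, m, _, hf, _⟩, _⟩ | ⟨_, h, _⟩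
      · exact hf.1.length_le
      · rw [h]
    have h2 : σ'.length ≤ σ''.length := by
      rcases hB with ⟨_, h, _⟩ | ⟨_, h, _⟩
      · rw [h]
        simp only [addreq, List.append_assoc, List.length_append]
        omega
      · rw [h]
    have h3 : (st (s+1)).1.length = σ''.length + 1 := by
      rw [hy]
      simp
    omega

/-- If the requirement with code `c` is never satisfied then it never acts. -/
private theorem ca_never {A O : ℕ → Bool} {st : ℕ → State} {B : ℕ → Bool} (h : Run A O st)
    (hB : Lim st B) (c : Code)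
    (H : ∀ n m, (m = Bool.toNat (A n) ↔ ∃ k, V c (pre B k) n m)) (s : ℕ) :
    encode c ∉ (st s).2.1 := by
  induction s with
  | zero =>
    rw [h.zero]
    simp
  | succ s ih =>
    obtain ⟨σ', σ'', a', p', hA, hSB, hy⟩ := h.step s
    have h2 : σ' <+: σ'' := by
      rcases hSB with ⟨_, h, _⟩ | ⟨_, h, _⟩
      · rw [h]
        simp only [addreq, List.append_assoc]
        exact List.prefix_append _ _
      · rw [h]
    have h3 : σ' <+: (st (s+1)).1 := by
      rw [hy]
      exact h2.trans (List.prefix_append _ _)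
    rcases hA with ⟨_, ⟨n, m, hnm, hf, hV⟩, ha⟩ | ⟨_, _, ha⟩
    · rw [hy]
      simp only [ha, List.mem_cons, not_or]
      refine ⟨fun hc => ?_, ih⟩
      rw [← hc, ofNat_encode] at hV
      rw [← hB (s+1)] at h3
      have h4 := ca_prefix_pre h3
      exact hnm ((H n m).2 ⟨σ'.length, by rw [← h4]; exact hV⟩)
    · rw [hy]
      simp only [ha]
      exact ih

theorem not_code {A O : ℕ → Bool} {st : ℕ → State} {B : ℕ → Bool} (h : Run A O st)
    (hB : Lim st B) (hW : ∀ T, S B 0 T ≤ 3 / 4) (hF : FreeDec) (hV : VDec)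
    (hA : ¬ Computable A) (c : Code) :
    ¬ ∀ n m, (m = Bool.toNat (A n) ↔ ∃ k, V c (pre B k) n m) := by
  intro H
  apply hA
  have hnever := ca_never h hB c H
  -- the tail of the weight is small
  obtain ⟨N, hN⟩ : ∃ N, ∀ a b, N ≤ a → a ≤ b → S B a b < (1 / 2 : ℝ) ^ (encode c + 3) := by
    have hbdd : BddAbove (Set.range fun T => S B 0 T) := ⟨3/4, by rintro _ ⟨T, rfl⟩; exact hW T⟩
    have hpos : (0 : ℝ) < (1 / 2 : ℝ) ^ (encode c + 3) := by positivity
    obtain ⟨N, hN⟩ := exists_lt_of_lt_ciSup
      (show (⨆ T, S B 0 T) - (1 / 2 : ℝ) ^ (encode c + 3) < ⨆ T, S B 0 T by linarith)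
    refine ⟨N, fun a b ha hab => ?_⟩
    have h1 := ca_S_add B (Nat.zero_le a) hab
    have h2 := ca_S_add B (Nat.zero_le N) ha
    have h3 := ca_S_nonneg B N a
    have h4 : S B 0 b ≤ ⨆ T, S B 0 T := le_ciSup hbdd b
    linarith
  -- the stage
  set s := Nat.pair (encode c) N with hs
  have hsN : N ≤ s := Nat.right_le_pair _ _
  set σ := (st s).1 with hσ
  have hlen : s ≤ σ.length := ca_run_length h s
  have hsplit : ¬ Split σ (encode c) := by
    obtain ⟨σ', σ'', a', p', hSA, hSB, hy⟩ := h.step s
    have e1 : (Nat.unpair s).1 = encode c := by rw [hs, Nat.unpair_pair]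
    rw [e1] at hSA
    rcases hSA with ⟨_, _, ha⟩ | ⟨hor, _, _⟩
    · exfalso
      apply hnever (s+1)
      rw [hy]
      simp [ha]
    · rcases hor with hor | hor
      · exact absurd hor (hnever s)
      · exact hor
  have hσB : σ = pre B σ.length := (hB s).symm
  have hfree : ∀ b, σ.length ≤ b → Free σ (pre B b) (encode c) := by
    intro b hb
    refine ⟨?_, ?_⟩
    · rw [hσB]
      exact ca_pre_prefix B hb
    · rw [ca_pre_length]
      have : S (ext (pre B b)) σ.length b = S B σ.length b := by
        unfold S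
        refine Finset.sum_congr rfl fun x hx => ?_
        rw [Finset.mem_Ico] at hx
        rw [ca_ext_pre B b x hx.2]
      rw [this]
      exact hN _ _ (hsN.trans hlen) hb
  obtain ⟨F, hFp, hFs⟩ := hF
  obtain ⟨G, hGp, hGs⟩ := hV
  have hce : (ofNat Code (encode c)) = c := ofNat_encode c
  -- existence of a witness
  have hex : ∀ n, ∃ τ, Free σ τ (encode c) ∧ V c τ n (Bool.toNat (A n)) := by
    intro n
    obtain ⟨k, hk⟩ := (H n (Bool.toNat (A n))).1 rfl
    refine ⟨pre B (max k σ.length), hfree _ (le_max_right _ _), ?_⟩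
    exact ca_V_mono (ca_pre_prefix B (le_max_left _ _)) hk
  have huniq : ∀ n τ m, Free σ τ (encode c) → V c τ n m → m = Bool.toNat (A n) := by
    intro n τ m h1 h2
    by_contra hne
    obtain ⟨τ', h3, h4⟩ := hex n
    exact hsplit ⟨n, m, Bool.toNat (A n), τ, τ', h1, h3, by rwa [hce], by rwa [hce], hne⟩
  -- the search
  let dec : ℕ → List Bool × ℕ := fun t => (decode (α := List Bool × ℕ) t).getD ([], 0)
  have hdec : Primrec dec := Primrec.option_getD.comp Primrec.decode (Primrec.const ([], 0))
  have hdec_enc : ∀ q, dec (encode q) = q := by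
    intro q
    simp only [dec, encodek, Option.getD_some]
  let test : ℕ → List Bool × ℕ → Bool := fun n q => F σ q.1 (encode c) && G (encode c) q.1 n q.2
  have htest : Primrec₂ test := by
    have h1 : Primrec₂ fun (n : ℕ) (q : List Bool × ℕ) => F σ q.1 (encode c) :=
      hFp.comp (Primrec.pair (Primrec.const σ) (Primrec.pair (Primrec.fst.comp Primrec.snd)
        (Primrec.const (encode c))))
    have h2 : Primrec₂ fun (n : ℕ) (q : List Bool × ℕ) => G (encode c) q.1 n q.2 :=
      hGp.comp (Primrec.pair (Primrec.const (encode c)) (Primrec.pair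
        (Primrec.fst.comp Primrec.snd) (Primrec.pair Primrec.fst
        (Primrec.snd.comp Primrec.snd))))
    exact Primrec.and.comp h1 h2
  have htest_iff : ∀ n q, test n q = true ↔ Free σ q.1 (encode c) ∧ V c q.1 n q.2 := by
    intro n q
    simp only [test, Bool.and_eq_true, hFs, hGs, hce]
  have htest2 : Computable₂ fun (n : ℕ) (t : ℕ) => test n (dec t) :=
    htest.to_comp.comp Computable.fst (hdec.to_comp.comp Computable.snd)
  have hrf : Partrec fun n => Nat.rfind fun t =>
      Part.some (test n (dec t)) := Partrec.rfind htest2.partrec₂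
  have hmap : Partrec fun n => (Nat.rfind fun t =>
      Part.some (test n (dec t))).map
        (fun t => decide ((dec t).2 = 1)) := by
    refine hrf.map ?_
    have : Primrec fun t : ℕ => decide ((dec t).2 = 1) := by
      have := (Primrec.eq (α := ℕ)).decide.comp
        (Primrec.snd.comp hdec) (Primrec.const 1)
      exact this
    exact this.to_comp.comp Computable.snd
  refine hmap.of_eq_tot fun n => ?_
  obtain ⟨τ, h1, h2⟩ := hex n
  have hdom : (Nat.rfind fun t => Part.some (test n (dec t))).Dom := by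
    refine Nat.rfind_dom.2 ⟨encode (τ, Bool.toNat (A n)), ?_, fun _ => trivial⟩
    refine Part.mem_some_iff.2 ?_
    rw [eq_comm, hdec_enc, htest_iff]
    exact ⟨h1, h2⟩
  obtain ⟨t, ht⟩ := Part.dom_iff_mem.1 hdom
  rw [Part.mem_map_iff]
  refine ⟨t, ht, ?_⟩
  have h3 := Part.mem_some_iff.1 (Nat.rfind_spec ht)
  rw [eq_comm, htest_iff] at h3
  have h4 := huniq n _ _ h3.1 h3.2
  rw [h4]
  cases A n <;> simp

end Pool.Agent.Helper7.AC
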