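import Pool.Agent.Helper40.AC.Stmts

/-!
# An explicit map of degree one, nowhere antipodal to the Nash map
-/

open scoped ContDiff Topology Matrix
open MeasureTheory

namespace Pool.Agent.Helper31.AC

open Pool.Agent.Helper40.AC

noncomputable section

/-- the polar angle -/
def psi (φ : ℝ) : ℝ := Real.pi * Real.smoothTransition (1 / 2 - Real.cos φ)

/-- the switch -/
def chi (φ : ℝ) : ℝ := Real.smoothTransition (Real.sin φ + 1 / 2)

theorem psi_smooth : ContDiff ℝ ∞ psi := by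
  unfold psi
  exact contDiff_const.mul (Real.smoothTransition.contDiff.comp
    (contDiff_const.sub Real.contDiff_cos))

theorem chi_smooth : ContDiff ℝ ∞ chi := by
  unfold chi
  exact Real.smoothTransition.contDiff.comp (Real.contDiff_sin.add contDiff_const)

theorem tri (φ : ℝ) : Real.sin (psi φ) = 0 ∨
    ((∀ᶠ x in 𝓝 φ, chi x = 1) ∧ 0 < Real.sin φ) ∨ ((∀ᶠ x in 𝓝 φ, chi x = 0) ∧ Real.sin φ < 0) := by
  rcases le_or_gt (1 / 2) (Real.cos φ) with h1 | h1
  · left
    unfold psi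
    rw [Real.smoothTransition.zero_of_nonpos (by linarith)]
    simp
  rcases le_or_gt (Real.cos φ) (-1 / 2) with h2 | h2
  · left
    unfold psi
    rw [Real.smoothTransition.one_of_one_le (by linarith)]
    simp
  right
  have h3 : Real.sin φ ^ 2 > 1 / 4 := by
    have := Real.sin_sq_add_cos_sq φ
    nlinarith
  rcases le_or_gt 0 (Real.sin φ) with h4 | h4
  · left
    have h5 : 1 / 2 < Real.sin φ := by nlinarith
    refine ⟨?_, by linarith⟩
    have h6 : ∀ᶠ x in 𝓝 φ, 1 / 2 < Real.sin x :=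
      Real.continuous_sin.continuousAt.eventually (lt_mem_nhds h5)
    filter_upwards [h6] with x hx
    exact Real.smoothTransition.one_of_one_le (by linarith)
  · right
    have h5 : Real.sin φ < -(1 / 2) := by nlinarith
    refine ⟨?_, h4⟩
    have h6 : ∀ᶠ x in 𝓝 φ, Real.sin x < -(1 / 2) :=
      Real.continuous_sin.continuousAt.eventually (gt_mem_nhds h5)
    filter_upwards [h6] with x hx
    exact Real.smoothTransition.zero_of_nonpos (by linarith)

/-- the map -/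
def al (θ φ : ℝ) : Fin 3 → ℝ :=
  ![-(chi φ * Real.sin θ * Real.sin (psi φ)),
    -((chi φ * Real.cos θ + (1 - chi φ)) * Real.sin (psi φ)), Real.cos (psi φ)]

/-- the map as a periodic map -/
def alM : PerMap where
  f := al
  smooth := by
    rw [contDiff_pi]
    intro i
    have hs : ContDiff ℝ ∞ (fun p : ℝ × ℝ => Real.sin (psi p.2)) :=
      Real.contDiff_sin.comp (psi_smooth.comp contDiff_snd)
    have hc : ContDiff ℝ ∞ (fun p : ℝ × ℝ => Real.cos (psi p.2)) :=
      Real.contDiff_cos.comp (psi_smooth.comp contDiff_snd)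
    have hx : ContDiff ℝ ∞ (fun p : ℝ × ℝ => chi p.2) := chi_smooth.comp contDiff_snd
    have h1 : ContDiff ℝ ∞ (fun p : ℝ × ℝ => Real.sin p.1) := Real.contDiff_sin.comp contDiff_fst
    have h2 : ContDiff ℝ ∞ (fun p : ℝ × ℝ => Real.cos p.1) := Real.contDiff_cos.comp contDiff_fst
    fin_cases i
    · exact ((hx.mul h1).mul hs).neg
    · exact (((hx.mul h2).add (contDiff_const.sub hx)).mul hs).neg
    · exact hc
  per1 := by
    intro θ φ
    unfold al
    rw [Real.sin_add_two_pi, Real.cos_add_two_pi]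
  per2 := by
    intro θ φ
    unfold al psi chi
    rw [Real.sin_add_two_pi, Real.cos_add_two_pi]
  unit := by
    intro θ φ
    have h1 := Real.sin_sq_add_cos_sq θ
    have h2 := Real.sin_sq_add_cos_sq (psi φ)
    simp only [al, Fin.sum_univ_three, Matrix.cons_val_zero, Matrix.cons_val_one,
      Matrix.cons_val_two, Matrix.head_cons, Matrix.tail_cons, Matrix.cons_val]
    rcases tri φ with h | ⟨h, -⟩ | ⟨h, -⟩
    · rw [h] at h2 ⊢
      linarith
    · have := h.self_of_nhds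
      rw [this]
      linear_combination Real.sin (psi φ) ^ 2 * h1 + h2
    · have := h.self_of_nhds
      rw [this]
      linear_combination h2

/-! ## the area -/

theorem al_theta (θ φ : ℝ) : deriv (fun t => al t φ) θ =
    ![-(chi φ * Real.cos θ * Real.sin (psi φ)), chi φ * Real.sin θ * Real.sin (psi φ), 0] := by
  apply HasDerivAt.deriv
  rw [hasDerivAt_pi]
  intro i
  fin_cases i
  · exact (((Real.hasDerivAt_sin θ).const_mul (chi φ)).mul_const _).neg
  · have := ((((Real.hasDerivAt_cos θ).const_mul (chi φ)).add_const (1 - chi φ)).mul_const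
      (Real.sin (psi φ))).neg
    refine this.congr_deriv ?_
    change -(chi φ * -Real.sin θ * Real.sin (psi φ)) = chi φ * Real.sin θ * Real.sin (psi φ)
    ring
  · exact hasDerivAt_const _ _

/-- the density -/
theorem al_w (θ φ : ℝ) : wA al θ φ = chi φ * (Real.sin (psi φ) * deriv psi φ) := by
  unfold wA
  have hps : HasDerivAt psi (deriv psi φ) φ :=
    (psi_smooth.differentiable (by simp)).differentiableAt.hasDerivAt
  rw [al_theta]
  rcases tri φ with h | ⟨h, -⟩ | ⟨h, -⟩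
  · rw [h]
    simp [crossProduct]
  · -- chi = 1 near phi
    have h1 : chi φ = 1 := h.self_of_nhds
    have h2 : deriv (fun t => al θ t) φ =
        ![-(Real.sin θ * (Real.cos (psi φ) * deriv psi φ)),
          -(Real.cos θ * (Real.cos (psi φ) * deriv psi φ)), -Real.sin (psi φ) * deriv psi φ] := by
      apply HasDerivAt.deriv
      have h3 : HasDerivAt (fun t : ℝ => (![-(1 * Real.sin θ * Real.sin (psi t)),
          -((1 * Real.cos θ + (1 - 1)) * Real.sin (psi t)), Real.cos (psi t)] : Fin 3 → ℝ))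
          ![-(Real.sin θ * (Real.cos (psi φ) * deriv psi φ)),
          -(Real.cos θ * (Real.cos (psi φ) * deriv psi φ)), -Real.sin (psi φ) * deriv psi φ] φ := by
        rw [hasDerivAt_pi]
        intro i
        fin_cases i
        · refine (((hps.sin).const_mul (1 * Real.sin θ)).neg).congr_deriv ?_
          change _ = -(Real.sin θ * (Real.cos (psi φ) * deriv psi φ))
          ring
        · refine (((hps.sin).const_mul (1 * Real.cos θ + (1 - 1))).neg).congr_deriv ?_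
          change _ = -(Real.cos θ * (Real.cos (psi φ) * deriv psi φ))
          ring
        · exact hps.cos
      refine h3.congr_of_eventuallyEq ?_
      filter_upwards [h] with x hx
      simp only [al, hx]
    rw [h2, h1]
    have e1 := Real.sin_sq_add_cos_sq θ
    have e2 := Real.sin_sq_add_cos_sq (psi φ)
    simp only [al, h1, crossProduct, LinearMap.mk₂_apply, dotProduct, Fin.sum_univ_three,
      Matrix.cons_val_zero, Matrix.cons_val_one, Matrix.cons_val_two, Matrix.head_cons,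
      Matrix.tail_cons, Matrix.cons_val]
    linear_combination (Real.sin (psi φ) * deriv psi φ *
      (Real.sin (psi φ) ^ 2 + Real.cos (psi φ) ^ 2)) * e1 + Real.sin (psi φ) * deriv psi φ * e2
  · have h1 : chi φ = 0 := h.self_of_nhds
    rw [h1]
    simp [crossProduct]

theorem al_DD : DD al = 4 * Real.pi := by
  unfold DD
  simp only [al_w]
  have hcont : Continuous (fun φ => Real.sin (psi φ) * deriv psi φ) :=
    (Real.continuous_sin.comp psi_smooth.continuous).mul (psi_smooth.continuous_deriv (by simp))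
  have hcc : Continuous (fun φ => chi φ * (Real.sin (psi φ) * deriv psi φ)) :=
    chi_smooth.continuous.mul hcont
  have h1 : ∫ φ in (0 : ℝ)..(2 * Real.pi), chi φ * (Real.sin (psi φ) * deriv psi φ) = 2 := by
    rw [← intervalIntegral.integral_add_adjacent_intervals (b := Real.pi)
      (hcc.intervalIntegrable _ _) (hcc.intervalIntegrable _ _)]
    have e1 : ∫ φ in (0 : ℝ)..Real.pi, chi φ * (Real.sin (psi φ) * deriv psi φ) =
        ∫ φ in (0 : ℝ)..Real.pi, (Real.sin (psi φ) * deriv psi φ) := by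
      apply intervalIntegral.integral_congr
      intro φ hφ
      rw [Set.uIcc_of_le Real.pi_pos.le] at hφ
      have h0 : 0 ≤ Real.sin φ := Real.sin_nonneg_of_nonneg_of_le_pi hφ.1 hφ.2
      rcases tri φ with h | ⟨h, -⟩ | ⟨h, h'⟩
      · simp [h]
      · simp [h.self_of_nhds]
      · exact absurd h' (not_lt.2 h0)
    have e2 : ∫ φ in Real.pi..(2 * Real.pi), chi φ * (Real.sin (psi φ) * deriv psi φ) =
        ∫ φ in Real.pi..(2 * Real.pi), (0 : ℝ) := by
      apply intervalIntegral.integral_congr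
      intro φ hφ
      rw [Set.uIcc_of_le (by linarith [Real.pi_pos])] at hφ
      have h0 : Real.sin φ ≤ 0 := by
        have h2 : Real.sin (φ - 2 * Real.pi) ≤ 0 :=
          Real.sin_nonpos_of_nonpos_of_neg_pi_le (by linarith [hφ.2]) (by linarith [hφ.1])
        rwa [Real.sin_sub_two_pi] at h2
      rcases tri φ with h | ⟨h, h'⟩ | ⟨h, h'⟩
      · simp [h]
      · exact absurd h' (not_lt.2 h0)
      · simp [h.self_of_nhds]
    rw [e1, e2]
    have h2 : ∀ x ∈ Set.uIcc 0 Real.pi, HasDerivAt (fun φ => -Real.cos (psi φ))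
        (Real.sin (psi x) * deriv psi x) x := by
      intro x _
      have hps : HasDerivAt psi (deriv psi x) x :=
        (psi_smooth.differentiable (by simp)).differentiableAt.hasDerivAt
      exact hps.cos.neg.congr_deriv (by ring)
    rw [intervalIntegral.integral_eq_sub_of_hasDerivAt h2 (hcont.intervalIntegrable _ _)]
    have p1 : psi Real.pi = Real.pi := by
      unfold psi
      rw [Real.cos_pi, Real.smoothTransition.one_of_one_le (by norm_num), mul_one]
    have p0 : psi 0 = 0 := by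
      unfold psi
      rw [Real.cos_zero, Real.smoothTransition.zero_of_nonpos (by norm_num), mul_zero]
    rw [p1, p0]
    simp
    norm_num
  rw [h1]
  simp
  ring

/-! ## the Nash map -/

/-- `|f|² + |β|²` -/
def Dn (c₁ s₁ c₂ s₂ t : ℝ) : ℝ :=
  fR c₁ s₁ c₂ s₂ ^ 2 + fI c₁ s₁ c₂ s₂ ^ 2 + t ^ 2 + (1 - c₂) ^ 2

theorem bv_id {c₁ s₁ c₂ s₂ t : ℝ} (h1 : c₁ ^ 2 + s₁ ^ 2 = 1) (h2 : c₂ ^ 2 + s₂ ^ 2 = 1)
    (ht : t ^ 3 + 4 * t = gg c₁ s₁ c₂ s₂) :
    Dn c₁ s₁ c₂ s₂ t * bv c₁ s₁ c₂ s₂ t 0 =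
      Nn c₁ s₁ c₂ s₂ t * (2 * (fR c₁ s₁ c₂ s₂ * t - fI c₁ s₁ c₂ s₂ * (1 - c₂))) ∧
    Dn c₁ s₁ c₂ s₂ t * bv c₁ s₁ c₂ s₂ t 1 =
      Nn c₁ s₁ c₂ s₂ t * (2 * (-(fR c₁ s₁ c₂ s₂ * (1 - c₂)) - fI c₁ s₁ c₂ s₂ * t)) ∧
    Dn c₁ s₁ c₂ s₂ t * bv c₁ s₁ c₂ s₂ t 2 =
      Nn c₁ s₁ c₂ s₂ t * (fR c₁ s₁ c₂ s₂ ^ 2 + fI c₁ s₁ c₂ s₂ ^ 2 - t ^ 2 - (1 - c₂) ^ 2) := by
  -- the relation kappa beta = - f h
  have r1 : kR c₁ s₁ c₂ s₂ t * t + kI c₁ s₁ c₂ s₂ t * (1 - c₂) =
      -(fR c₁ s₁ c₂ s₂ * hR c₁ s₁ c₂ s₂ - fI c₁ s₁ c₂ s₂ * hI c₁ s₁ c₂ s₂) := by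
    unfold gg at ht
    unfold kR kI fR fI hR hI
    have e : c₂ ^ 2 = 1 - s₂ ^ 2 := by linarith
    rw [e] at ht
    linear_combination ht
  have r2 : kI c₁ s₁ c₂ s₂ t * t - kR c₁ s₁ c₂ s₂ t * (1 - c₂) =
      -(fR c₁ s₁ c₂ s₂ * hI c₁ s₁ c₂ s₂ + fI c₁ s₁ c₂ s₂ * hR c₁ s₁ c₂ s₂) := by
    unfold kR kI fR fI hR hI
    linear_combination ((s₂ * (3 - c₂) / 4) * (1 + s₂) ^ 2) * h1 + (3 - c₂) * h2
  set FR := fR c₁ s₁ c₂ s₂
  set FI := fI c₁ s₁ c₂ s₂
  set HR := hR c₁ s₁ c₂ s₂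
  set HI := hI c₁ s₁ c₂ s₂
  set KR := kR c₁ s₁ c₂ s₂ t
  set KI := kI c₁ s₁ c₂ s₂ t
  have e0 : bv c₁ s₁ c₂ s₂ t 0 = 2 * ((FR * t - FI * (1 - c₂)) - (KR * HR + KI * HI)) := rfl
  have e1 : bv c₁ s₁ c₂ s₂ t 1 = 2 * ((-(FR * (1 - c₂)) - FI * t) - (KR * HI - KI * HR)) := rfl
  have e2 : bv c₁ s₁ c₂ s₂ t 2 = FR ^ 2 + FI ^ 2 - t ^ 2 - (1 - c₂) ^ 2 +
      KR ^ 2 + KI ^ 2 - HR ^ 2 - HI ^ 2 := rfl
  have eN : Nn c₁ s₁ c₂ s₂ t = FR ^ 2 + FI ^ 2 + t ^ 2 + (1 - c₂) ^ 2 +
    KR ^ 2 + KI ^ 2 + HR ^ 2 + HI ^ 2 := rfl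
  have eD : Dn c₁ s₁ c₂ s₂ t = FR ^ 2 + FI ^ 2 + t ^ 2 + (1 - c₂) ^ 2 := rfl
  rw [e0, e1, e2, eN, eD]
  set r := 1 - c₂
  refine ⟨?_, ?_, ?_⟩
  · linear_combination (-2 * ((t * HR + r * HI) + (KR * FR - KI * FI))) * r1 +
      (-2 * ((t * HI - r * HR) + (KR * FI + KI * FR))) * r2
  · linear_combination (-2 * ((t * HI - r * HR) - (KR * FI + KI * FR))) * r1 +
      (-2 * ((KR * FR - KI * FI) - (t * HR + r * HI))) * r2
  · linear_combination (2 * ((KR * t + KI * r) - (FR * HR - FI * HI))) * r1 +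
      (2 * ((KI * t - KR * r) - (FR * HI + FI * HR))) * r2

theorem sq_zero {a b : ℝ} (h : a ^ 2 + b ^ 2 = 0) : a = 0 ∧ b = 0 := by
  have ha : a ^ 2 = 0 := le_antisymm (by linarith [sq_nonneg b]) (sq_nonneg a)
  have hb : b ^ 2 = 0 := le_antisymm (by linarith [sq_nonneg a]) (sq_nonneg b)
  exact ⟨pow_eq_zero_iff (two_ne_zero) |>.1 ha, pow_eq_zero_iff (two_ne_zero) |>.1 hb⟩

/-- **The explicit map is nowhere antipodal to the Nash map.** -/
theorem al_anti (hROOT : S_ROOT) (θ φ : ℝ) : al θ φ + aA θ φ ≠ 0 := by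
  intro h0
  set c₁ := Real.cos θ with hc1
  set s₁ := Real.sin θ with hs1
  set c₂ := Real.cos φ with hc2
  set s₂ := Real.sin φ with hs2
  have e1 : c₁ ^ 2 + s₁ ^ 2 = 1 := by
    rw [hc1, hs1]; linarith [Real.sin_sq_add_cos_sq θ]
  have e2 : c₂ ^ 2 + s₂ ^ 2 = 1 := by
    rw [hc2, hs2]; linarith [Real.sin_sq_add_cos_sq φ]
  set t := rootF (gg c₁ s₁ c₂ s₂) with ht
  have et : t ^ 3 + 4 * t = gg c₁ s₁ c₂ s₂ := rootF_spec _
  have hN : 0 < Nn c₁ s₁ c₂ s₂ t := hROOT.2.2.1 c₁ s₁ c₂ s₂ t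
  obtain ⟨b0, b1, b2⟩ := bv_id e1 e2 et
  have ha : ∀ i, bv c₁ s₁ c₂ s₂ t i = - (al θ φ i) * Nn c₁ s₁ c₂ s₂ t := by
    intro i
    have h3 : al θ φ i + aA θ φ i = 0 := congrFun h0 i
    have h4 : aA θ φ i = bv c₁ s₁ c₂ s₂ t i / Nn c₁ s₁ c₂ s₂ t := rfl
    rw [h4] at h3
    field_simp at h3
    linarith
  rw [ha 0] at b0
  rw [ha 1] at b1
  rw [ha 2] at b2
  set FR := fR c₁ s₁ c₂ s₂ with hFR
  set FI := fI c₁ s₁ c₂ s₂ with hFI
  have hFR' : FR = (1 + s₂) * c₁ + (1 - s₂) := rfl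
  have hFI' : FI = (1 + s₂) * s₁ := rfl
  set r := 1 - c₂ with hr
  have q0 : Dn c₁ s₁ c₂ s₂ t * (- (al θ φ 0)) = 2 * (FR * t - FI * r) := by
    apply mul_left_cancel₀ hN.ne'
    linear_combination b0
  have q1 : Dn c₁ s₁ c₂ s₂ t * (- (al θ φ 1)) = 2 * (-(FR * r) - FI * t) := by
    apply mul_left_cancel₀ hN.ne'
    linear_combination b1
  have q2 : Dn c₁ s₁ c₂ s₂ t * (- (al θ φ 2)) = FR ^ 2 + FI ^ 2 - t ^ 2 - r ^ 2 := by
    apply mul_left_cancel₀ hN.ne'
    linear_combination b2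
  have hD : Dn c₁ s₁ c₂ s₂ t = FR ^ 2 + FI ^ 2 + t ^ 2 + r ^ 2 := rfl
  have hD0 : 0 ≤ Dn c₁ s₁ c₂ s₂ t := by rw [hD]; positivity
  have hc1' : c₁ ≤ 1 ∧ -1 ≤ c₁ := ⟨Real.cos_le_one θ, Real.neg_one_le_cos θ⟩
  have hc2' : c₂ ≤ 1 ∧ -1 ≤ c₂ := ⟨Real.cos_le_one φ, Real.neg_one_le_cos φ⟩
  have hs2' : s₂ ≤ 1 ∧ -1 ≤ s₂ := ⟨Real.sin_le_one φ, Real.neg_one_le_sin φ⟩
  have hr0 : 0 ≤ r := by rw [hr]; linarith
  have hpsi0 : 0 ≤ psi φ := mul_nonneg Real.pi_pos.le (Real.smoothTransition.nonneg _)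
  have hpsi1 : psi φ ≤ Real.pi := by
    unfold psi
    nlinarith [Real.pi_pos, Real.smoothTransition.le_one (1 / 2 - Real.cos φ)]
  have hS : 0 ≤ Real.sin (psi φ) := Real.sin_nonneg_of_nonneg_of_le_pi hpsi0 hpsi1
  set S := Real.sin (psi φ) with hSd
  have a0 : al θ φ 0 = -(chi φ * s₁ * S) := rfl
  have a1' : al θ φ 1 = -((chi φ * c₁ + (1 - chi φ)) * S) := rfl
  have a2' : al θ φ 2 = Real.cos (psi φ) := rfl
  rcases tri φ with h | ⟨h, h'⟩ | ⟨h, h'⟩
  · -- sin psi = 0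
    have hS0 : S = 0 := h
    rw [a0, hS0] at q0
    rw [a1', hS0] at q1
    have k1 : r * (FR ^ 2 + FI ^ 2) = 0 := by linear_combination (-FI / 2) * (-q0) * (-1) * (-1) - FR / 2 * (-q1) * (-1) * (-1)
    have k2 : t * (FR ^ 2 + FI ^ 2) = 0 := by linear_combination (-FR / 2) * q0 + FI / 2 * q1
    have hcos : Real.cos (psi φ) ^ 2 = 1 := by
      have := Real.sin_sq_add_cos_sq (psi φ)
      rw [← hSd, hS0] at this
      linarith
    have hcc : Real.cos (psi φ) = 1 ∨ Real.cos (psi φ) = -1 := by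
      have : (Real.cos (psi φ) - 1) * (Real.cos (psi φ) + 1) = 0 := by linear_combination hcos
      rcases mul_eq_zero.1 this with h5 | h5
      · left; linarith
      · right; linarith
    rcases hcc with hcc | hcc
    · -- psi = 0
      rw [a2', hcc, hD] at q2
      have hf0 : FR ^ 2 + FI ^ 2 = 0 := by linarith
      have hFR0 : FR = 0 := (sq_zero hf0).1
      have hFI0 : FI = 0 := (sq_zero hf0).2
      -- s₂ = 0
      have hs20 : s₂ = 0 := by
        rw [hFI'] at hFI0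
        rw [hFR'] at hFR0
        rcases mul_eq_zero.1 hFI0 with h5 | h5
        · have : s₂ = -1 := by linarith
          rw [this] at hFR0
          norm_num at hFR0
        · rw [h5] at e1
          have h6 : (c₁ - 1) * (c₁ + 1) = 0 := by linear_combination e1
          rcases mul_eq_zero.1 h6 with h7 | h7
          · have : c₁ = 1 := by linarith
            rw [this] at hFR0
            linarith
          · have : c₁ = -1 := by linarith
            rw [this] at hFR0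
            linarith
      have hpz : psi φ = 0 := by
        by_contra hne
        have h8 : 0 < psi φ := lt_of_le_of_ne hpsi0 (Ne.symm hne)
        have h9 := Real.cos_lt_cos_of_nonneg_of_le_pi (le_refl 0) hpsi1 h8
        rw [Real.cos_zero, hcc] at h9
        exact lt_irrefl _ h9
      have hc2h : 1 / 2 ≤ c₂ := by
        unfold psi at hpz
        have h10 : Real.smoothTransition (1 / 2 - Real.cos φ) = 0 :=
          (mul_eq_zero.1 hpz).resolve_left Real.pi_ne_zero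
        have h11 := Real.smoothTransition.zero_iff_nonpos.1 h10
        linarith
      have hc21 : c₂ = 1 := by
        have h12 : (c₂ - 1) * (c₂ + 1) = 0 := by
          rw [hs20] at e2
          linear_combination e2
        rcases mul_eq_zero.1 h12 with h13 | h13
        · linarith
        · linarith
      have hgg : gg c₁ s₁ c₂ s₂ = 0 := by unfold gg; rw [hs20]; ring
      have ht0 : t = 0 := by
        rw [hgg] at et
        have h14 : t * (t ^ 2 + 4) = 0 := by linear_combination et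
        exact (mul_eq_zero.1 h14).resolve_right (by positivity)
      have hb2 := ha 2
      rw [a2', hcc] at hb2
      have hbv : bv c₁ s₁ c₂ s₂ t 2 = 16 := by
        change fR c₁ s₁ c₂ s₂ ^ 2 + fI c₁ s₁ c₂ s₂ ^ 2 - t ^ 2 - (1 - c₂) ^ 2 +
          kR c₁ s₁ c₂ s₂ t ^ 2 + kI c₁ s₁ c₂ s₂ t ^ 2 - hR c₁ s₁ c₂ s₂ ^ 2 - hI c₁ s₁ c₂ s₂ ^ 2 = 16
        rw [← hFR, ← hFI, hFR0, hFI0]
        unfold kR kI hR hI
        rw [ht0, hc21, hs20]
        norm_num
      rw [hbv] at hb2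
      linarith
    · rw [a2', hcc, hD] at q2
      have hb0 : t ^ 2 + r ^ 2 = 0 := by linarith
      have hr1 : r = 0 := (sq_zero hb0).2
      have hc21 : c₂ = 1 := by rw [hr] at hr1; linarith
      have hpz : psi φ = 0 := by
        unfold psi
        rw [← hc2, hc21, Real.smoothTransition.zero_of_nonpos (by norm_num), mul_zero]
      rw [hpz, Real.cos_zero] at hcc
      norm_num at hcc
  · have hx : chi φ = 1 := h.self_of_nhds
    have hs2p : 0 < s₂ := h'
    rw [a0, hx] at q0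
    rw [a1', hx] at q1
    have k1 : 2 * (r * (FR ^ 2 + FI ^ 2)) = -(Dn c₁ s₁ c₂ s₂ t * S * (FI * s₁ + FR * c₁)) := by
      linear_combination FI * q0 * (1) + FR * q1
    have k2 : 0 < FI * s₁ + FR * c₁ := by
      have : FI * s₁ + FR * c₁ = (1 + s₂) + (1 - s₂) * c₁ := by
        rw [hFR', hFI']; linear_combination (1 + s₂) * e1
      rw [this]
      have h15 : 0 ≤ (1 - s₂) * (1 + c₁) := mul_nonneg (by linarith [hs2'.1]) (by linarith [hc1'.2])
      linarith
    have k3 : 0 < FR ^ 2 + FI ^ 2 := by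
      rcases lt_or_eq_of_le (show 0 ≤ FR ^ 2 + FI ^ 2 by positivity) with h5 | h5
      · exact h5
      · exfalso
        rw [(sq_zero h5.symm).1, (sq_zero h5.symm).2] at k2
        norm_num at k2
    have k4 : 0 < r := by
      rcases lt_or_eq_of_le hr0 with h5 | h5
      · exact h5
      · exfalso
        have h16 : c₂ = 1 := by rw [hr] at h5; linarith
        rw [h16] at e2
        have h17 : s₂ ^ 2 = 0 := by linarith
        have h18 : s₂ = 0 := pow_eq_zero_iff (two_ne_zero) |>.1 h17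
        rw [h18] at hs2p
        exact lt_irrefl _ hs2p
    have k5 : 0 < 2 * (r * (FR ^ 2 + FI ^ 2)) := by positivity
    have k6 : 0 ≤ Dn c₁ s₁ c₂ s₂ t * S * (FI * s₁ + FR * c₁) := by positivity
    linarith
  · have hx : chi φ = 0 := h.self_of_nhds
    have hs2p : s₂ < 0 := h'
    rw [a0, hx] at q0
    rw [a1', hx] at q1
    have k1 : 2 * (r * (FR ^ 2 + FI ^ 2)) = -(Dn c₁ s₁ c₂ s₂ t * S * FR) := by
      linear_combination FI * q0 * (1) + FR * q1
    have k2 : 0 < FR := by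
      rw [hFR']
      have h15 : 0 ≤ (1 + s₂) * (1 + c₁) := mul_nonneg (by linarith [hs2'.2]) (by linarith [hc1'.2])
      linarith
    have k3 : 0 < FR ^ 2 + FI ^ 2 := by positivity
    have k4 : 0 < r := by
      rcases lt_or_eq_of_le hr0 with h5 | h5
      · exact h5
      · exfalso
        have h16 : c₂ = 1 := by rw [hr] at h5; linarith
        rw [h16] at e2
        have h17 : s₂ ^ 2 = 0 := by linarith
        have h18 : s₂ = 0 := pow_eq_zero_iff (two_ne_zero) |>.1 h17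
        rw [h18] at hs2p
        exact lt_irrefl _ hs2p
    have k5 : 0 < 2 * (r * (FR ^ 2 + FI ^ 2)) := by positivity
    have k6 : 0 ≤ Dn c₁ s₁ c₂ s₂ t * S * FR := by positivity
    linarith

theorem a0_ok (h : S_ROOT) : S_A0 := by
  refine ⟨alM, ?_, fun θ φ => al_anti h θ φ⟩
  change DD al ≠ 0
  rw [al_DD]
  have := Real.pi_pos
  positivity

end

end Pool.Agent.Helper31.AC
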