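import Mathlib

/-!
# Antisymmetrised sums over four indices
-/

namespace Pool.Agent.Helper31.AC

open Equiv

variable {C : Type*} [AddCommGroup C]

/-- the antisymmetrised sum over the four indices -/
def alt (f : Fin 4 → Fin 4 → Fin 4 → Fin 4 → C) : C :=
  ∑ σ : Perm (Fin 4), (Perm.sign σ : ℤ) • f (σ 0) (σ 1) (σ 2) (σ 3)

theorem alt_add (f g : Fin 4 → Fin 4 → Fin 4 → Fin 4 → C) :
    alt (fun i j k l => f i j k l + g i j k l) = alt f + alt g := by
  simp [alt, Finset.sum_add_distrib, smul_add]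

theorem alt_neg (f : Fin 4 → Fin 4 → Fin 4 → Fin 4 → C) :
    alt (fun i j k l => - f i j k l) = - alt f := by
  simp [alt, smul_neg]

theorem alt_sub (f g : Fin 4 → Fin 4 → Fin 4 → Fin 4 → C) :
    alt (fun i j k l => f i j k l - g i j k l) = alt f - alt g := by
  simp [alt, Finset.sum_sub_distrib, smul_sub]

theorem alt_zero : alt (fun _ _ _ _ => (0 : C)) = 0 := by
  simp [alt]

theorem map_alt {C' : Type*} [AddCommGroup C'] (T : C →+ C')
    (f : Fin 4 → Fin 4 → Fin 4 → Fin 4 → C) :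
    T (alt f) = alt (fun i j k l => T (f i j k l)) := by
  simp [alt, map_sum, map_zsmul]

/-- reindexing by a permutation -/
theorem alt_perm (π : Perm (Fin 4)) (f : Fin 4 → Fin 4 → Fin 4 → Fin 4 → C)
    (g : Fin 4 → Fin 4 → Fin 4 → Fin 4 → C)
    (h : ∀ s : Fin 4 → Fin 4, g (s 0) (s 1) (s 2) (s 3) =
      f (s (π 0)) (s (π 1)) (s (π 2)) (s (π 3))) :
    alt g = (Perm.sign π : ℤ) • alt f := by
  unfold alt
  rw [Finset.smul_sum]
  rw [← Equiv.sum_comp (Equiv.mulRight π)
    (fun σ : Perm (Fin 4) => (Perm.sign π : ℤ) • ((Perm.sign σ : ℤ) • f (σ 0) (σ 1) (σ 2) (σ 3)))]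
  refine Finset.sum_congr rfl fun σ _ => ?_
  rw [h]
  simp only [Equiv.coe_mulRight, Perm.sign_mul, Perm.mul_apply, Units.val_mul, smul_smul]
  congr 1
  have : ((Perm.sign π : ℤˣ) : ℤ) * (Perm.sign π : ℤˣ) = 1 := by
    rw [← Units.val_mul]; simp
  calc ((Perm.sign σ : ℤˣ) : ℤ) = (Perm.sign σ : ℤˣ) * (((Perm.sign π : ℤˣ) : ℤ) * (Perm.sign π : ℤˣ)) := by
        rw [this, mul_one]
    _ = _ := by ring

theorem alt_swap01 (f : Fin 4 → Fin 4 → Fin 4 → Fin 4 → C) :
    alt (fun i j k l => f j i k l) = - alt f := by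
  rw [alt_perm (swap 0 1) f (fun i j k l => f j i k l) (fun s => by
    simp only [show (swap (0 : Fin 4) 1) 0 = 1 by decide, show (swap (0 : Fin 4) 1) 1 = 0 by decide,
      show (swap (0 : Fin 4) 1) 2 = 2 by decide, show (swap (0 : Fin 4) 1) 3 = 3 by decide])]
  rw [show (Perm.sign (swap (0 : Fin 4) 1) : ℤ) = -1 by decide]
  simp

theorem alt_swap12 (f : Fin 4 → Fin 4 → Fin 4 → Fin 4 → C) :
    alt (fun i j k l => f i k j l) = - alt f := by
  rw [alt_perm (swap 1 2) f (fun i j k l => f i k j l) (fun s => by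
    simp only [show (swap (1 : Fin 4) 2) 0 = 0 by decide, show (swap (1 : Fin 4) 2) 1 = 2 by decide,
      show (swap (1 : Fin 4) 2) 2 = 1 by decide, show (swap (1 : Fin 4) 2) 3 = 3 by decide])]
  rw [show (Perm.sign (swap (1 : Fin 4) 2) : ℤ) = -1 by decide]
  simp

theorem alt_swap23 (f : Fin 4 → Fin 4 → Fin 4 → Fin 4 → C) :
    alt (fun i j k l => f i j l k) = - alt f := by
  rw [alt_perm (swap 2 3) f (fun i j k l => f i j l k) (fun s => by
    simp only [show (swap (2 : Fin 4) 3) 0 = 0 by decide, show (swap (2 : Fin 4) 3) 1 = 1 by decide,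
      show (swap (2 : Fin 4) 3) 2 = 3 by decide, show (swap (2 : Fin 4) 3) 3 = 2 by decide])]
  rw [show (Perm.sign (swap (2 : Fin 4) 3) : ℤ) = -1 by decide]
  simp

/-- cyclic permutation of the indices -/
theorem alt_cyc (f : Fin 4 → Fin 4 → Fin 4 → Fin 4 → C) :
    alt (fun i j k l => f j k l i) = - alt f := by
  have h1 : alt (fun i j k l => f j k l i) =
      - alt (fun i j k l => f i k l j) := by
    rw [← alt_swap01 (fun i j k l => f i k l j)]
  have h2 : alt (fun i j k l => f i k l j) = - alt (fun i j k l => f i j l k) := by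
    rw [← alt_swap12 (fun i j k l => f i j l k)]
  rw [h1, h2, alt_swap23, neg_neg]

/-- the double step -/
theorem alt_cyc2 (f : Fin 4 → Fin 4 → Fin 4 → Fin 4 → C) :
    alt (fun i j k l => f k l i j) = alt f := by
  have h1 := alt_cyc (fun i j k l => f j k l i)
  rw [alt_cyc f, neg_neg] at h1
  exact h1

/-- the triple step -/
theorem alt_cyc3 (f : Fin 4 → Fin 4 → Fin 4 → Fin 4 → C) :
    alt (fun i j k l => f l i j k) = - alt f := by
  have h1 := alt_cyc (fun i j k l => f l i j k)
  have h2 : alt (fun i j k l => (fun i j k l => f l i j k) j k l i) = alt f := rfl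
  rw [h2] at h1
  rw [h1, neg_neg]

/-- reversal of the indices -/
theorem alt_rev (f : Fin 4 → Fin 4 → Fin 4 → Fin 4 → C) :
    alt (fun i j k l => f l k j i) = alt f := by
  have h1 := alt_cyc2 (fun i j k l => f j i l k)
  have h2 := alt_swap01 (fun i j k l => f i j l k)
  have h3 := alt_swap23 f
  rw [h3, neg_neg] at h2
  have h4 : alt (fun i j k l => (fun i j k l => f j i l k) k l i j) =
      alt (fun i j k l => f l k j i) := rfl
  rw [h4] at h1
  rw [h1]
  exact h2

/-- symmetric in the first two indices -/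
theorem alt_symm01 [IsAddTorsionFree C] (f : Fin 4 → Fin 4 → Fin 4 → Fin 4 → C)
    (h : ∀ i j k l, f i j k l = f j i k l) : alt f = 0 := by
  have h1 : alt f = - alt f := by
    rw [← alt_swap01 f]
    congr 1
    funext i j k l
    exact h i j k l
  exact self_eq_neg.1 h1

theorem alt_symm12 [IsAddTorsionFree C] (f : Fin 4 → Fin 4 → Fin 4 → Fin 4 → C)
    (h : ∀ i j k l, f i j k l = f i k j l) : alt f = 0 := by
  have h1 : alt f = - alt f := by
    rw [← alt_swap12 f]
    congr 1
    funext i j k l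
    exact h i j k l
  exact self_eq_neg.1 h1

theorem alt_symm23 [IsAddTorsionFree C] (f : Fin 4 → Fin 4 → Fin 4 → Fin 4 → C)
    (h : ∀ i j k l, f i j k l = f i j l k) : alt f = 0 := by
  have h1 : alt f = - alt f := by
    rw [← alt_swap23 f]
    congr 1
    funext i j k l
    exact h i j k l
  exact self_eq_neg.1 h1

/-- symmetric in the indices 0 and 2 -/
theorem alt_symm02 [IsAddTorsionFree C] (f : Fin 4 → Fin 4 → Fin 4 → Fin 4 → C)
    (h : ∀ i j k l, f i j k l = f k j i l) : alt f = 0 := by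
  have h1 : alt (fun i j k l => f i k j l) = 0 :=
    alt_symm01 _ (fun i j k l => h i k j l)
  rw [alt_swap12] at h1
  exact neg_eq_zero.1 h1

theorem alt_symm03 [IsAddTorsionFree C] (f : Fin 4 → Fin 4 → Fin 4 → Fin 4 → C)
    (h : ∀ i j k l, f i j k l = f l j k i) : alt f = 0 := by
  have h1 : alt (fun i j k l => f i j l k) = 0 :=
    alt_symm02 _ (fun i j k l => h i j l k)
  rw [alt_swap23] at h1
  exact neg_eq_zero.1 h1

theorem alt_symm13 [IsAddTorsionFree C] (f : Fin 4 → Fin 4 → Fin 4 → Fin 4 → C)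
    (h : ∀ i j k l, f i j k l = f i l k j) : alt f = 0 := by
  have h1 : alt (fun i j k l => f i j l k) = 0 :=
    alt_symm12 _ (fun i j k l => h i j l k)
  rw [alt_swap23] at h1
  exact neg_eq_zero.1 h1

end Pool.Agent.Helper31.AC
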