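import Pool.Agent.Helper31.AC.Alt

/-!
# The closedness of the Chern form, algebraically
-/

namespace Pool.Agent.Helper31.AC

open Equiv

/-- A ring with four commuting derivations and a closed trace. -/
structure NCT (R C : Type*) [Ring R] [AddCommGroup C] where
  D : Fin 4 → R →+ R
  T : R →+ C
  leib : ∀ i x y, D i (x * y) = D i x * y + x * D i y
  comm : ∀ i j x, D i (D j x) = D j (D i x)
  tr : ∀ x y, T (x * y) = T (y * x)
  int : ∀ i x, T (D i x) = 0

namespace NCT

variable {R C : Type*} [Ring R] [AddCommGroup C] (S : NCT R C)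

/-- the Chern form -/
def form (e : R) (i j k l : Fin 4) : R := e * S.D i e * S.D j e * S.D k e * S.D l e

/-- the Chern number -/
def phi (e : R) : C := alt (fun i j k l => S.T (S.form e i j k l))

/-- a derivation kills the middle -/
theorem mid {R : Type*} [Ring R] {e : R} (he : e * e = e) (δ : R →+ R)
    (hδ : ∀ x y, δ (x * y) = δ x * y + x * δ y) : e * δ e * e = 0 := by
  have h1 : δ e = δ e * e + e * δ e := by
    conv_lhs => rw [← he]
    rw [hδ]
  have h2 : e * δ e = e * δ e * e + e * δ e := by
    conv_lhs => rw [h1]
    rw [mul_add, ← mul_assoc, ← mul_assoc, he]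
  exact (left_eq_add.1 (h2.trans (add_comm _ _)))

theorem split {R : Type*} [Ring R] {e : R} (he : e * e = e) (δ : R →+ R)
    (hδ : ∀ x y, δ (x * y) = δ x * y + x * δ y) : δ e = δ e * e + e * δ e := by
  conv_lhs => rw [← he]
  rw [hδ]

/-- `e` commutes with a product of two derivatives -/
theorem commDD {R : Type*} [Ring R] {e : R} (a b : R) (ha : a = a * e + e * a)
    (hb : b = b * e + e * b) : e * (a * b) = a * b * e := by
  have h1 : e * a = a - a * e := by rw [eq_sub_iff_add_eq, add_comm]; exact ha.symm
  have h2 : e * b = b - b * e := by rw [eq_sub_iff_add_eq, add_comm]; exact hb.symm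
  calc e * (a * b) = e * a * b := by rw [mul_assoc]
    _ = (a - a * e) * b := by rw [h1]
    _ = a * b - a * (e * b) := by rw [sub_mul, mul_assoc]
    _ = a * b - a * (b - b * e) := by rw [h2]
    _ = a * b * e := by rw [mul_sub, mul_assoc]; abel

theorem hDe {e : R} (he : e * e = e) (i : Fin 4) : S.D i e = S.D i e * e + e * S.D i e :=
  split he (S.D i) (S.leib i)

/-- `e` commutes with a product of four derivatives -/
theorem commD4 {e : R} (he : e * e = e) (i j k l : Fin 4) :
    e * (S.D i e * S.D j e * S.D k e * S.D l e) = S.D i e * S.D j e * S.D k e * S.D l e * e := by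
  have h1 := commDD _ _ (S.hDe he i) (S.hDe he j)
  have h2 := commDD _ _ (S.hDe he k) (S.hDe he l)
  calc e * (S.D i e * S.D j e * S.D k e * S.D l e)
      = e * (S.D i e * S.D j e) * (S.D k e * S.D l e) := by noncomm_ring
    _ = S.D i e * S.D j e * (e * (S.D k e * S.D l e)) := by rw [h1]; noncomm_ring
    _ = S.D i e * S.D j e * (S.D k e * S.D l e * e) := by rw [h2]
    _ = _ := by noncomm_ring

/-- the trace of the product of a variation and the four derivatives vanishes -/
theorem van {e : R} (he : e * e = e) (y : R) (hy : y = y * e + e * y) (i j k l : Fin 4) :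
    S.T (y * S.D i e * S.D j e * S.D k e * S.D l e) = 0 := by
  set P := S.D i e * S.D j e * S.D k e * S.D l e with hP
  have hc : e * P = P * e := S.commD4 he i j k l
  have hm : e * y * e = 0 := by
    have h2 : e * y = e * y * e + e * y := by
      conv_lhs => rw [hy]
      rw [mul_add, ← mul_assoc, ← mul_assoc, he]
    exact (left_eq_add.1 (h2.trans (add_comm _ _)))
  have e1 : S.T (y * e * P) = 0 := by
    have : y * e * P = y * e * P * e := by
      calc y * e * P = y * (e * P) := by rw [mul_assoc]
        _ = y * (e * e * P) := by rw [he]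
        _ = y * (e * (e * P)) := by rw [mul_assoc e e P]
        _ = y * (e * (P * e)) := by rw [hc]
        _ = y * e * P * e := by noncomm_ring
    rw [this, S.tr]
    have h3 : e * (y * e * P) = e * y * e * P := by noncomm_ring
    rw [h3, hm, zero_mul, map_zero]
  have e2 : S.T (e * y * P) = 0 := by
    have h4 : e * y * P = e * (y * P) := by rw [mul_assoc]
    rw [h4, S.tr, mul_assoc y P e, ← hc, ← mul_assoc]
    exact e1
  have h5 : y * S.D i e * S.D j e * S.D k e * S.D l e = y * e * P + e * y * P := by
    rw [← add_mul, ← hy, hP]; noncomm_ring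
  rw [h5, map_add, e1, e2, add_zero]

variable [IsAddTorsionFree C]

/-- Variation of the Chern number along a fifth derivation. -/
theorem vari {e : R} (he : e * e = e) (δ : R →+ R)
    (hδ : ∀ x y, δ (x * y) = δ x * y + x * δ y) (hcomm : ∀ i x, δ (S.D i x) = S.D i (δ x)) :
    alt (fun i j k l => S.T (δ (S.form e i j k l))) = 0 := by
  set y := δ e with hyd
  have hy : y = y * e + e * y := split he δ hδ
  have hvan : ∀ i j k l, S.T (y * S.D i e * S.D j e * S.D k e * S.D l e) = 0 :=
    fun i j k l => S.van he y hy i j k l
  have hexp : ∀ i j k l, δ (S.form e i j k l) =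
      y * S.D i e * S.D j e * S.D k e * S.D l e
      + e * S.D i y * S.D j e * S.D k e * S.D l e
      + e * S.D i e * S.D j y * S.D k e * S.D l e
      + e * S.D i e * S.D j e * S.D k y * S.D l e
      + e * S.D i e * S.D j e * S.D k e * S.D l y := by
    intro i j k l
    unfold form
    simp only [hδ, hcomm, ← hyd]
    noncomm_ring
  simp only [hexp, map_add, hvan, zero_add]
  rw [alt_add, alt_add, alt_add]
  -- the four terms
  have dd : ∀ i j, S.D i (S.D j e) = S.D j (S.D i e) := fun i j => S.comm i j e
  have t1 : alt (fun i j k l => S.T (e * S.D i y * S.D j e * S.D k e * S.D l e)) = 0 := by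
    have h : ∀ i j k l, S.T (e * S.D i y * S.D j e * S.D k e * S.D l e) =
        - S.T (y * S.D j e * S.D k e * S.D l e * S.D i e)
        - S.T (e * y * S.D i (S.D j e) * S.D k e * S.D l e)
        - S.T (e * y * S.D j e * S.D i (S.D k e) * S.D l e)
        - S.T (e * y * S.D j e * S.D k e * S.D i (S.D l e)) := by
      intro i j k l
      have h0 := S.int i (e * y * S.D j e * S.D k e * S.D l e)
      simp only [S.leib, add_mul, map_add] at h0
      have h1 : S.T (S.D i e * y * S.D j e * S.D k e * S.D l e) =
          S.T (y * S.D j e * S.D k e * S.D l e * S.D i e) := by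
        have : S.D i e * y * S.D j e * S.D k e * S.D l e =
          (S.D i e) * (y * S.D j e * S.D k e * S.D l e) := by noncomm_ring
        rw [this, S.tr]
      rw [h1] at h0
      rw [← sub_eq_zero, ← h0]
      abel
    simp only [h]
    rw [alt_sub, alt_sub, alt_sub, alt_neg]
    rw [alt_symm01 (fun i j k l => S.T (e * y * S.D i (S.D j e) * S.D k e * S.D l e))
      (fun i j k l => by rw [dd i j])]
    rw [alt_symm02 (fun i j k l => S.T (e * y * S.D j e * S.D i (S.D k e) * S.D l e))
      (fun i j k l => by rw [dd i k])]
    rw [alt_symm03 (fun i j k l => S.T (e * y * S.D j e * S.D k e * S.D i (S.D l e)))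
      (fun i j k l => by rw [dd i l])]
    simp only [hvan, alt_zero]
    simp
  have t2 : alt (fun i j k l => S.T (e * S.D i e * S.D j y * S.D k e * S.D l e)) = 0 := by
    have h : ∀ i j k l, S.T (e * S.D i e * S.D j y * S.D k e * S.D l e) =
        - S.T (y * S.D k e * S.D l e * S.D j e * S.D i e)
        - S.T (e * S.D j (S.D i e) * y * S.D k e * S.D l e)
        - S.T (e * S.D i e * y * S.D j (S.D k e) * S.D l e)
        - S.T (e * S.D i e * y * S.D k e * S.D j (S.D l e)) := by
      intro i j k l
      have h0 := S.int j (e * S.D i e * y * S.D k e * S.D l e)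
      simp only [S.leib, add_mul, map_add] at h0
      have h1 : S.T (S.D j e * S.D i e * y * S.D k e * S.D l e) =
          S.T (y * S.D k e * S.D l e * S.D j e * S.D i e) := by
        have : S.D j e * S.D i e * y * S.D k e * S.D l e =
          (S.D j e * S.D i e) * (y * S.D k e * S.D l e) := by noncomm_ring
        rw [this, S.tr]; noncomm_ring
      rw [h1] at h0
      rw [← sub_eq_zero, ← h0]
      abel
    simp only [h]
    rw [alt_sub, alt_sub, alt_sub, alt_neg]
    rw [alt_symm01 (fun i j k l => S.T (e * S.D j (S.D i e) * y * S.D k e * S.D l e))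
      (fun i j k l => by rw [dd i j])]
    rw [alt_symm12 (fun i j k l => S.T (e * S.D i e * y * S.D j (S.D k e) * S.D l e))
      (fun i j k l => by rw [dd j k])]
    rw [alt_symm13 (fun i j k l => S.T (e * S.D i e * y * S.D k e * S.D j (S.D l e)))
      (fun i j k l => by rw [dd j l])]
    simp only [hvan, alt_zero]
    simp
  have t3 : alt (fun i j k l => S.T (e * S.D i e * S.D j e * S.D k y * S.D l e)) = 0 := by
    have h : ∀ i j k l, S.T (e * S.D i e * S.D j e * S.D k y * S.D l e) =
        - S.T (y * S.D l e * S.D k e * S.D i e * S.D j e)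
        - S.T (e * S.D k (S.D i e) * S.D j e * y * S.D l e)
        - S.T (e * S.D i e * S.D k (S.D j e) * y * S.D l e)
        - S.T (e * S.D i e * S.D j e * y * S.D k (S.D l e)) := by
      intro i j k l
      have h0 := S.int k (e * S.D i e * S.D j e * y * S.D l e)
      simp only [S.leib, add_mul, map_add] at h0
      have h1 : S.T (S.D k e * S.D i e * S.D j e * y * S.D l e) =
          S.T (y * S.D l e * S.D k e * S.D i e * S.D j e) := by
        have : S.D k e * S.D i e * S.D j e * y * S.D l e =
          (S.D k e * S.D i e * S.D j e) * (y * S.D l e) := by noncomm_ring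
        rw [this, S.tr]; noncomm_ring
      rw [h1] at h0
      rw [← sub_eq_zero, ← h0]
      abel
    simp only [h]
    rw [alt_sub, alt_sub, alt_sub, alt_neg]
    rw [alt_symm02 (fun i j k l => S.T (e * S.D k (S.D i e) * S.D j e * y * S.D l e))
      (fun i j k l => by rw [dd i k])]
    rw [alt_symm12 (fun i j k l => S.T (e * S.D i e * S.D k (S.D j e) * y * S.D l e))
      (fun i j k l => by rw [dd j k])]
    rw [alt_symm23 (fun i j k l => S.T (e * S.D i e * S.D j e * y * S.D k (S.D l e)))
      (fun i j k l => by rw [dd k l])]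
    simp only [hvan, alt_zero]
    simp
  have t4 : alt (fun i j k l => S.T (e * S.D i e * S.D j e * S.D k e * S.D l y)) = 0 := by
    have h : ∀ i j k l, S.T (e * S.D i e * S.D j e * S.D k e * S.D l y) =
        - S.T (y * S.D l e * S.D i e * S.D j e * S.D k e)
        - S.T (e * S.D l (S.D i e) * S.D j e * S.D k e * y)
        - S.T (e * S.D i e * S.D l (S.D j e) * S.D k e * y)
        - S.T (e * S.D i e * S.D j e * S.D l (S.D k e) * y) := by
      intro i j k l
      have h0 := S.int l (e * S.D i e * S.D j e * S.D k e * y)
      simp only [S.leib, add_mul, map_add] at h0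
      have h1 : S.T (S.D l e * S.D i e * S.D j e * S.D k e * y) =
          S.T (y * S.D l e * S.D i e * S.D j e * S.D k e) := by
        have : S.D l e * S.D i e * S.D j e * S.D k e * y =
          (S.D l e * S.D i e * S.D j e * S.D k e) * (y) := by noncomm_ring
        rw [this, S.tr]; noncomm_ring
      rw [h1] at h0
      rw [← sub_eq_zero, ← h0]
      abel
    simp only [h]
    rw [alt_sub, alt_sub, alt_sub, alt_neg]
    rw [alt_symm03 (fun i j k l => S.T (e * S.D l (S.D i e) * S.D j e * S.D k e * y))
      (fun i j k l => by rw [dd i l])]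
    rw [alt_symm13 (fun i j k l => S.T (e * S.D i e * S.D l (S.D j e) * S.D k e * y))
      (fun i j k l => by rw [dd j l])]
    rw [alt_symm23 (fun i j k l => S.T (e * S.D i e * S.D j e * S.D l (S.D k e) * y))
      (fun i j k l => by rw [dd k l])]
    simp only [hvan, alt_zero]
    simp
  rw [t1, t2, t3, t4]
  simp

end NCT

end Pool.Agent.Helper31.AC
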