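import Pool.Agent.Helper31.AC.Mat

/-!
# The Chern number: isomorphism, direct sum, tensor product, transpose
-/

namespace Pool.Agent.Helper31.AC

open Equiv Polynomial Matrix

namespace CBase

variable {B : Type*} [CommRing B] (S : CBase B)

section

variable {n m : Type*} [Fintype n] [DecidableEq n] [Fintype m] [DecidableEq m]

/-- the curvature factor -/
def dd (e : Matrix n n B) (i j : Fin 4) : Matrix n n B := e * e.map (S.D i) * e.map (S.D j)

theorem mapM_D (e : Matrix n n B) (i : Fin 4) : (S.mat n).D i e = e.map (S.D i) := rfl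

theorem T_mat (M : Matrix n n B) : (S.mat n).T M = S.τ (Matrix.trace M) := rfl

theorem phi_def (e : Matrix n n B) : S.phi e = alt (fun i j k l =>
    S.τ (Matrix.trace (e * e.map (S.D i) * e.map (S.D j) * e.map (S.D k) * e.map (S.D l)))) := rfl

/-- a mapping of the derivatives of products of rectangular matrices -/
theorem map_mul' {a b c : Type*} [Fintype b] (d : B →+ B)
    (hd : ∀ x y, d (x * y) = d x * y + x * d y) (M : Matrix a b B) (N : Matrix b c B) :
    (M * N).map d = M.map d * N + M * N.map d := by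
  ext i j
  simp [Matrix.mul_apply, hd, Finset.sum_add_distrib]

/-- conjugate by a bijection of the indices -/
theorem phi_reindex (ε : n ≃ m) (e : Matrix n n B) : S.phi (e.submatrix ε.symm ε.symm) = S.phi e := by
  rw [phi_def, phi_def]
  congr 1
  funext i j k l
  congr 1
  have h : ∀ (M N : Matrix n n B), M.submatrix ε.symm ε.symm * N.submatrix ε.symm ε.symm =
      (M * N).submatrix ε.symm ε.symm := by
    intro M N
    rw [Matrix.submatrix_mul_equiv]
  have h2 : ∀ i, (e.submatrix ε.symm ε.symm).map (S.D i) =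
      (e.map (S.D i)).submatrix ε.symm ε.symm := fun i => rfl
  rw [h2, h2, h2, h2, h, h, h, h]
  simp only [Matrix.trace, Matrix.diag_apply, Matrix.submatrix_apply]
  exact Equiv.sum_comp ε.symm (fun x => (e * e.map (S.D i) * e.map (S.D j) * e.map (S.D k) *
    e.map (S.D l)) x x)

/-- the direct sum -/
theorem phi_diag (e : Matrix n n B) (f : Matrix m m B) :
    S.phi (Matrix.fromBlocks e 0 0 f) = S.phi e + S.phi f := by
  rw [phi_def, phi_def, phi_def, ← alt_add]
  congr 1
  funext i j k l
  rw [← map_add]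
  congr 1
  have h2 : ∀ i, (Matrix.fromBlocks e 0 0 f).map (S.D i) =
      Matrix.fromBlocks (e.map (S.D i)) 0 0 (f.map (S.D i)) := by
    intro i
    rw [Matrix.fromBlocks_map]
    congr 1 <;> (ext; simp)
  rw [h2, h2, h2, h2]
  simp only [Matrix.fromBlocks_multiply, Matrix.mul_zero, Matrix.zero_mul, add_zero, zero_add]
  simp [Matrix.trace, Fintype.sum_sum_type]

theorem phi_zero : S.phi (0 : Matrix n n B) = 0 := by
  rw [phi_def]
  simp [alt_zero]

theorem phi_one : S.phi (1 : Matrix n n B) = 0 := by
  rw [phi_def]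
  have h : ∀ i, (1 : Matrix n n B).map (S.D i) = 0 := by
    intro i
    ext a b
    simp only [Matrix.map_apply, Matrix.one_apply, Matrix.zero_apply]
    split_ifs
    · exact S.D_one i
    · exact map_zero _
  simp [h, alt_zero]

/-- two idempotent matrices are isomorphic -/
def Iso (e : Matrix n n B) (f : Matrix m m B) : Prop :=
  ∃ (u : Matrix n m B) (v : Matrix m n B), u * v = e ∧ v * u = f

/-- normalised form of an isomorphism -/
theorem Iso.norm {e : Matrix n n B} {f : Matrix m m B} (h : Iso e f) (he : e * e = e)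
    (hf : f * f = f) : ∃ (u : Matrix n m B) (v : Matrix m n B), u * v = e ∧ v * u = f ∧
      e * u = u ∧ u * f = u ∧ v * e = v ∧ f * v = v := by
  obtain ⟨u, v, h1, h2⟩ := h
  have h3 : e * u * (f * v) = e := by
    calc e * u * (f * v) = e * (u * f) * v := by simp only [Matrix.mul_assoc]
      _ = e * (u * (v * u)) * v := by rw [h2]
      _ = e * ((u * v) * (u * v)) := by simp only [Matrix.mul_assoc]
      _ = e := by rw [h1, he, he]
  have h4 : f * v * (e * u) = f := by
    calc f * v * (e * u) = f * (v * e) * u := by simp only [Matrix.mul_assoc]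
      _ = f * (v * (u * v)) * u := by rw [h1]
      _ = f * ((v * u) * (v * u)) := by simp only [Matrix.mul_assoc]
      _ = f := by rw [h2, hf, hf]
  have h5 : u * f = e * u := by rw [← h1, ← h2]; simp only [Matrix.mul_assoc]
  have h6 : v * e = f * v := by rw [← h1, ← h2]; simp only [Matrix.mul_assoc]
  refine ⟨e * u, f * v, h3, h4, ?_, ?_, ?_, ?_⟩
  · rw [← Matrix.mul_assoc, he]
  · rw [Matrix.mul_assoc, h5, ← Matrix.mul_assoc, he]
  · rw [Matrix.mul_assoc, h6, ← Matrix.mul_assoc, hf]
  · rw [← Matrix.mul_assoc, hf]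

theorem Iso.refl {e : Matrix n n B} (he : e * e = e) : Iso e e := ⟨e, e, he, he⟩

theorem Iso.symm {e : Matrix n n B} {f : Matrix m m B} (h : Iso e f) : Iso f e := by
  obtain ⟨u, v, h1, h2⟩ := h
  exact ⟨v, u, h2, h1⟩

theorem Iso.trans {q : Type*} [Fintype q] [DecidableEq q] {e : Matrix n n B} {f : Matrix m m B}
    {g : Matrix q q B} (h : Iso e f) (h' : Iso f g) (he : e * e = e) (hf : f * f = f)
    (hg : g * g = g) : Iso e g := by
  obtain ⟨u, v, h1, h2, h3, h4, h5, h6⟩ := h.norm he hf
  obtain ⟨u', v', h1', h2', h3', h4', h5', h6'⟩ := h'.norm hf hg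
  refine ⟨u * u', v' * v, ?_, ?_⟩
  · calc u * u' * (v' * v) = u * (u' * v') * v := by simp only [Matrix.mul_assoc]
      _ = e := by rw [h1', h4, h1]
  · calc v' * v * (u * u') = v' * (v * u) * u' := by simp only [Matrix.mul_assoc]
      _ = g := by rw [h2, h5', h2']

/-- **Invariance under isomorphism.** -/
theorem phi_iso {e : Matrix n n B} {f : Matrix m m B} (he : e * e = e) (hf : f * f = f)
    (h : Iso e f) : S.phi e = S.phi f := by
  obtain ⟨u, v, huv, hvu, heu, huf, hve, hfv⟩ := h.norm he hf
  -- the four idempotents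
  have s1 : S.phi (Matrix.fromBlocks e 0 v (0 : Matrix m m B)) =
      S.phi (Matrix.fromBlocks e 0 0 (0 : Matrix m m B)) := by
    have h0 := S.phi_lin (e := Matrix.fromBlocks e 0 0 (0 : Matrix m m B))
      (x := Matrix.fromBlocks 0 0 v 0)
      (by simp [Matrix.fromBlocks_multiply, he])
      (by simp [Matrix.fromBlocks_multiply, hve])
      (by simp [Matrix.fromBlocks_multiply])
    rw [Matrix.fromBlocks_add] at h0
    simpa using h0
  have s2 : S.phi (Matrix.fromBlocks 0 u (0 : Matrix m n B) f) =
      S.phi (Matrix.fromBlocks e 0 v (0 : Matrix m m B)) := by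
    have h0 := S.phi_lin (e := Matrix.fromBlocks e 0 v (0 : Matrix m m B))
      (x := Matrix.fromBlocks (-e) u (-v) f)
      (by simp [Matrix.fromBlocks_multiply, he, hve])
      (by simp [Matrix.fromBlocks_multiply, he, hve, heu, huv, hvu, hfv])
      (by simp [Matrix.fromBlocks_multiply, he, hve, heu, huv, hvu, hfv, huf, hf])
    rw [Matrix.fromBlocks_add] at h0
    simpa using h0
  have s3 : S.phi (Matrix.fromBlocks 0 0 (0 : Matrix m n B) f) =
      S.phi (Matrix.fromBlocks 0 u (0 : Matrix m n B) f) := by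
    have h0 := S.phi_lin (e := Matrix.fromBlocks (0 : Matrix n n B) u (0 : Matrix m n B) f)
      (x := Matrix.fromBlocks 0 (-u) 0 0)
      (by simp [Matrix.fromBlocks_multiply, huf, hf])
      (by simp [Matrix.fromBlocks_multiply, huf])
      (by simp [Matrix.fromBlocks_multiply])
    rw [Matrix.fromBlocks_add] at h0
    simpa using h0
  have h1 := S.phi_diag e (0 : Matrix m m B)
  have h2 := S.phi_diag (0 : Matrix n n B) f
  rw [phi_zero, add_zero] at h1
  rw [phi_zero, zero_add] at h2
  rw [← h1, ← h2, s3, s2, s1]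

/-! ## the transpose -/

theorem phi_transpose (e : Matrix n n B) (he : e * e = e) : S.phi e.transpose = S.phi e := by
  rw [phi_def, phi_def, ← alt_rev]
  congr 1
  funext i j k l
  congr 1
  have h2 : ∀ i, e.transpose.map (S.D i) = (e.map (S.D i)).transpose := fun i => rfl
  rw [h2, h2, h2, h2, ← Matrix.transpose_mul, ← Matrix.transpose_mul, ← Matrix.transpose_mul,
    ← Matrix.transpose_mul, Matrix.trace_transpose]
  -- move `e` to the front
  have h3 := (S.mat n).commD4 he i j k l
  simp only [mapM_D] at h3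
  have h4 : e.map (S.D i) * (e.map (S.D j) * (e.map (S.D k) * (e.map (S.D l) * e))) =
      e * e.map (S.D i) * e.map (S.D j) * e.map (S.D k) * e.map (S.D l) := by
    simp only [← Matrix.mul_assoc]
    rw [← h3]
    simp only [← Matrix.mul_assoc]
  rw [h4]

/-! ## the tensor product -/

theorem map_kron (d : B →+ B) (hd : ∀ x y, d (x * y) = d x * y + x * d y)
    (e : Matrix n n B) (f : Matrix m m B) :
    (Matrix.kroneckerMap (fun x y => x * y) e f).map d =
      Matrix.kroneckerMap (fun x y => x * y) (e.map d) f +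
      Matrix.kroneckerMap (fun x y => x * y) e (f.map d) := by
  ext ⟨i, i'⟩ ⟨j, j'⟩
  simp [hd]

/-- the tensor product of matrices -/
abbrev ten (e : Matrix n n B) (f : Matrix m m B) : Matrix (n × m) (n × m) B :=
  Matrix.kroneckerMap (fun x y => x * y) e f

theorem ten_mul (e e' : Matrix n n B) (f f' : Matrix m m B) :
    ten e f * ten e' f' = ten (e * e') (f * f') :=
  (Matrix.mul_kronecker_mul e e' f f').symm

theorem trace_ten (e : Matrix n n B) (f : Matrix m m B) :
    Matrix.trace (ten e f) = Matrix.trace e * Matrix.trace f :=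
  Matrix.trace_kronecker e f

theorem ten_idem {e : Matrix n n B} {f : Matrix m m B} (he : e * e = e) (hf : f * f = f) :
    ten e f * ten e f = ten e f := by
  rw [ten_mul, he, hf]

theorem dd_ten {e : Matrix n n B} {f : Matrix m m B} (he : e * e = e) (hf : f * f = f)
    (i j : Fin 4) : S.dd (ten e f) i j = ten (S.dd e i j) f + ten e (S.dd f i j) := by
  have h1 : e * e.map (S.D i) * e = 0 := NCT.mid he (mapM n (S.D i)) (mapM_leib _ (S.leib i))
  have h2 : f * f.map (S.D i) * f = 0 := NCT.mid hf (mapM m (S.D i)) (mapM_leib _ (S.leib i))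
  unfold dd
  rw [map_kron _ (S.leib i), map_kron _ (S.leib j)]
  change ten e f * (ten (e.map (S.D i)) f + ten e (f.map (S.D i))) *
    (ten (e.map (S.D j)) f + ten e (f.map (S.D j))) = _
  simp only [mul_add, add_mul, ten_mul, he, hf, h1, h2]
  have z1 : ∀ (g : Matrix m m B), ten (0 : Matrix n n B) g = 0 := by
    intro g; ext; simp
  have z2 : ∀ (g : Matrix n n B), ten g (0 : Matrix m m B) = 0 := by
    intro g; ext; simp
  simp only [z1, z2, add_zero, zero_add]

theorem form_dd {e : Matrix n n B} (he : e * e = e) (i j k l : Fin 4) :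
    e * e.map (S.D i) * e.map (S.D j) * e.map (S.D k) * e.map (S.D l) =
      S.dd e i j * S.dd e k l := by
  have h1 := NCT.commDD (e := e) (e.map (S.D i)) (e.map (S.D j))
    (NCT.split he (mapM n (S.D i)) (mapM_leib _ (S.leib i)))
    (NCT.split he (mapM n (S.D j)) (mapM_leib _ (S.leib j)))
  unfold dd
  calc e * e.map (S.D i) * e.map (S.D j) * e.map (S.D k) * e.map (S.D l)
      = e * e * e.map (S.D i) * e.map (S.D j) * e.map (S.D k) * e.map (S.D l) := by rw [he]
    _ = e * (e * (e.map (S.D i) * e.map (S.D j))) * (e.map (S.D k) * e.map (S.D l)) := by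
        simp only [Matrix.mul_assoc]
    _ = e * (e.map (S.D i) * e.map (S.D j) * e) * (e.map (S.D k) * e.map (S.D l)) := by rw [h1]
    _ = _ := by simp only [Matrix.mul_assoc]

theorem phi_dd {e : Matrix n n B} (he : e * e = e) : S.phi e =
    alt (fun i j k l => S.τ (Matrix.trace (S.dd e i j * S.dd e k l))) := by
  rw [phi_def]
  simp only [S.form_dd he]

theorem dd_mul {e : Matrix n n B} (he : e * e = e) (i j : Fin 4) :
    e * S.dd e i j = S.dd e i j ∧ S.dd e i j * e = S.dd e i j := by
  have h1 := NCT.commDD (e := e) (e.map (S.D i)) (e.map (S.D j))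
    (NCT.split he (mapM n (S.D i)) (mapM_leib _ (S.leib i)))
    (NCT.split he (mapM n (S.D j)) (mapM_leib _ (S.leib j)))
  constructor
  · unfold dd
    simp only [← Matrix.mul_assoc, he]
  · unfold dd
    calc e * e.map (S.D i) * e.map (S.D j) * e = e * (e.map (S.D i) * e.map (S.D j) * e) := by
          simp only [Matrix.mul_assoc]
      _ = e * (e * (e.map (S.D i) * e.map (S.D j))) := by rw [h1]
      _ = e * e * e.map (S.D i) * e.map (S.D j) := by simp only [Matrix.mul_assoc]
      _ = _ := by rw [he]

/-- **The Chern number of a tensor product.** -/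
theorem phi_ten {e : Matrix n n B} {f : Matrix m m B} (he : e * e = e) (hf : f * f = f)
    (hs : e.transpose = e) (a b : ℕ) (ha : Matrix.trace e = a) (hb : Matrix.trace f = b) :
    S.phi (ten e f) = b * S.phi e + a * S.phi f := by
  rw [S.phi_dd (ten_idem he hf), S.phi_dd he, S.phi_dd hf]
  have h1 : ∀ i j k l, S.τ (Matrix.trace (S.dd (ten e f) i j * S.dd (ten e f) k l)) =
      (b : ℂ) * S.τ (Matrix.trace (S.dd e i j * S.dd e k l)) +
      (a : ℂ) * S.τ (Matrix.trace (S.dd f i j * S.dd f k l)) +
      S.τ (Matrix.trace (S.dd e i j) * Matrix.trace (S.dd f k l)) +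
      S.τ (Matrix.trace (S.dd e k l) * Matrix.trace (S.dd f i j)) := by
    intro i j k l
    rw [S.dd_ten he hf, S.dd_ten he hf, mul_add, add_mul, add_mul]
    simp only [ten_mul, (S.dd_mul he _ _).1, (S.dd_mul he _ _).2, (S.dd_mul hf _ _).1,
      (S.dd_mul hf _ _).2, he, hf, Matrix.trace_add, trace_ten, ha, hb, map_add]
    have c1 : ∀ (c : ℕ) (y : B), S.τ (y * c) = c * S.τ y := by
      intro c y
      have : y * (c : B) = c • y := by rw [nsmul_eq_mul, mul_comm]
      rw [this, map_nsmul, nsmul_eq_mul]
    have c2 : ∀ (c : ℕ) (y : B), S.τ (c * y) = c * S.τ y := by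
      intro c y
      rw [mul_comm, c1]
    rw [c1, c2]
    ring
  have hsym : ∀ i j, Matrix.trace (S.dd e i j) = Matrix.trace (S.dd e j i) := by
    intro i j
    have h2 : ∀ i, (e.map (S.D i)).transpose = e.map (S.D i) := by
      intro i
      have : (e.map (S.D i)).transpose = e.transpose.map (S.D i) := rfl
      rw [this, hs]
    unfold dd
    rw [← Matrix.trace_transpose (e * e.map (S.D i) * e.map (S.D j)), Matrix.transpose_mul,
      Matrix.transpose_mul, h2, h2, hs, ← Matrix.mul_assoc, Matrix.trace_mul_comm,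
      ← Matrix.mul_assoc]
  simp only [h1]
  rw [alt_add, alt_add, alt_add]
  rw [alt_symm01 (fun i j k l => S.τ (Matrix.trace (S.dd e i j) * Matrix.trace (S.dd f k l)))
    (fun i j k l => by rw [hsym i j])]
  rw [alt_symm23 (fun i j k l => S.τ (Matrix.trace (S.dd e k l) * Matrix.trace (S.dd f i j)))
    (fun i j k l => by rw [hsym k l])]
  have h3 : ∀ (c : ℂ) (F : Fin 4 → Fin 4 → Fin 4 → Fin 4 → ℂ),
      alt (fun i j k l => c * F i j k l) = c * alt F := by
    intro c F
    exact (map_alt (AddMonoidHom.mulLeft c) F).symm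
  rw [h3, h3]
  ring

theorem ten_iso_left {q : Type*} [Fintype q] [DecidableEq q]
    {e : Matrix n n B} {f : Matrix m m B} (g : Matrix q q B) (hg : g * g = g) (h : Iso e f) :
    Iso (ten e g) (ten f g) := by
  obtain ⟨u, v, h1, h2⟩ := h
  refine ⟨Matrix.kroneckerMap (fun x y => x * y) u g, Matrix.kroneckerMap (fun x y => x * y) v g,
    ?_, ?_⟩
  · have := (Matrix.mul_kronecker_mul u v g g).symm
    rw [h1, hg] at this
    exact this
  · have := (Matrix.mul_kronecker_mul v u g g).symm
    rw [h2, hg] at this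
    exact this

/-- a rank one idempotent times its transpose is trivial -/
theorem ten_dual {f : Matrix m m B} (hmin : ∀ i j k l, f i j * f k l = f i l * f k j)
    (htr : Matrix.trace f = 1) :
    Iso (ten f f.transpose) (1 : Matrix (Fin 1) (Fin 1) B) := by
  refine ⟨Matrix.of (fun p _ => f p.1 p.2), Matrix.of (fun _ p => f p.2 p.1), ?_, ?_⟩
  · ext ⟨i, k⟩ ⟨j, l⟩
    simp only [Matrix.mul_apply, Finset.univ_unique, Fin.default_eq_zero, Finset.sum_singleton,
      Matrix.of_apply, Matrix.kroneckerMap_apply, Matrix.transpose_apply]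
    rw [hmin i j l k]
  · have h1 : ∀ x y, f y x * f x y = f y y * f x x := fun x y => hmin y x x y
    have h2 : ∑ x, f x x = 1 := htr
    have h3 : ∑ x, ∑ y, f y x * f x y = 1 := by
      calc ∑ x, ∑ y, f y x * f x y = ∑ x, ∑ y, f y y * f x x := by
            refine Finset.sum_congr rfl fun x _ => Finset.sum_congr rfl fun y _ => h1 x y
        _ = 1 := by
            simp only [← Finset.sum_mul, h2, one_mul]
    ext i j
    have hi : i = j := Subsingleton.elim _ _
    subst hi
    rw [Matrix.one_apply_eq, ← h3, Matrix.mul_apply, Fintype.sum_prod_type]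
    rfl

/-- **The algebraic obstruction.** -/
theorem obstruction {e : Matrix n n B} {f : Matrix m m B} (he : e * e = e) (hf : f * f = f)
    (hs : e.transpose = e) (ha : Matrix.trace e = 2)
    (hmin : ∀ i j k l, f i j * f k l = f i l * f k j) (hb : Matrix.trace f = 1)
    (h1 : S.phi e = S.phi f)
    (h2 : S.phi (ten e f.transpose) = S.phi (ten f f.transpose) + S.phi f.transpose) :
    S.phi e = 0 := by
  have hft : f.transpose * f.transpose = f.transpose := by
    rw [← Matrix.transpose_mul, hf]
  have h3 := S.phi_ten he hft hs 2 1 (by rw [ha]; simp) (by rw [Matrix.trace_transpose, hb]; simp)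
  have h4 : S.phi (ten f f.transpose) = 0 := by
    rw [S.phi_iso (ten_idem hf hft) (by simp) (ten_dual hmin hb), phi_one]
  rw [h3, h4, S.phi_transpose f hf, ← h1] at h2
  push_cast at h2
  have h5 : 2 * S.phi e = 0 := by linear_combination h2
  simpa using h5

end

end CBase

end Pool.Agent.Helper31.AC
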