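import Pool.Agent.Helper31.AC.Core

/-!
# The Chern number of idempotent matrices: invariance under isomorphism
-/

namespace Pool.Agent.Helper31.AC

open Equiv Polynomial Matrix

/-- A commutative ring with four commuting derivations and a closed integral. -/
structure CBase (B : Type*) [CommRing B] where
  D : Fin 4 → B →+ B
  τ : B →+ ℂ
  leib : ∀ i x y, D i (x * y) = D i x * y + x * D i y
  comm : ∀ i j x, D i (D j x) = D j (D i x)
  int : ∀ i x, τ (D i x) = 0

section PolyD

variable {B : Type*} [CommRing B]

/-- a map applied to the coefficients -/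
noncomputable def polyF (d : B →+ B) (p : B[X]) : B[X] :=
  ∑ k ∈ p.support, Polynomial.monomial k (d (p.coeff k))

theorem polyF_coeff (d : B →+ B) (p : B[X]) (n : ℕ) : (polyF d p).coeff n = d (p.coeff n) := by
  unfold polyF
  rw [Polynomial.finsetSum_coeff]
  simp only [Polynomial.coeff_monomial]
  rw [Finset.sum_ite_eq']
  split_ifs with h
  · rfl
  · rw [Polynomial.notMem_support_iff.1 h, map_zero]

/-- a map applied to the coefficients -/
noncomputable def polyD (d : B →+ B) : B[X] →+ B[X] where
  toFun p := polyF d p
  map_zero' := by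
    ext n
    simp [polyF_coeff]
  map_add' p q := by
    ext n
    simp [polyF_coeff]

theorem polyD_coeff (d : B →+ B) (p : B[X]) (n : ℕ) : (polyD d p).coeff n = d (p.coeff n) :=
  polyF_coeff d p n

theorem polyD_leib (d : B →+ B) (hd : ∀ x y, d (x * y) = d x * y + x * d y) (p q : B[X]) :
    polyD d (p * q) = polyD d p * q + p * polyD d q := by
  ext n
  rw [polyD_coeff, Polynomial.coeff_mul, Polynomial.coeff_add, Polynomial.coeff_mul,
    Polynomial.coeff_mul, map_sum, ← Finset.sum_add_distrib]
  refine Finset.sum_congr rfl fun x _ => ?_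
  rw [hd, polyD_coeff, polyD_coeff]

end PolyD

namespace CBase

variable {B : Type*} [CommRing B] (S : CBase B)

section
variable (n : Type*) [Fintype n] [DecidableEq n]

/-- a map applied to the entries -/
def mapM {A : Type*} [CommRing A] (d : A →+ A) : Matrix n n A →+ Matrix n n A where
  toFun M := M.map d
  map_zero' := by ext; simp
  map_add' M N := by ext; simp

variable {n}

theorem mapM_leib {A : Type*} [CommRing A] (d : A →+ A)
    (hd : ∀ x y, d (x * y) = d x * y + x * d y) (M N : Matrix n n A) :
    mapM n d (M * N) = mapM n d M * N + M * mapM n d N := by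
  ext i j
  simp [mapM, Matrix.mul_apply, hd, Finset.sum_add_distrib]

variable (n)

/-- the matrix algebra -/
noncomputable def mat : NCT (Matrix n n B) ℂ where
  D i := mapM n (S.D i)
  T := S.τ.comp (Matrix.traceAddMonoidHom n B)
  leib i x y := mapM_leib _ (S.leib i) x y
  comm i j x := by
    ext a b
    simp [mapM, S.comm i j]
  tr x y := by
    simp only [AddMonoidHom.coe_comp, Function.comp_apply, Matrix.traceAddMonoidHom_apply]
    rw [Matrix.trace_mul_comm]
  int i x := by
    simp only [AddMonoidHom.coe_comp, Function.comp_apply, Matrix.traceAddMonoidHom_apply]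
    simp [Matrix.trace, mapM, map_sum, S.int]

/-- the matrix algebra over the polynomials -/
noncomputable def matX : NCT (Matrix n n B[X]) (ℕ → ℂ) where
  D i := mapM n (polyD (S.D i))
  T :=
    { toFun := fun M k => S.τ ((Matrix.trace M).coeff k)
      map_zero' := by ext; simp
      map_add' := fun M N => by ext; simp }
  leib i x y := mapM_leib _ (polyD_leib _ (S.leib i)) x y
  comm i j x := by
    ext a b k
    simp [mapM, polyD_coeff, S.comm i j]
  tr x y := by
    ext k
    simp only [AddMonoidHom.coe_mk, ZeroHom.coe_mk]
    rw [Matrix.trace_mul_comm]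
  int i x := by
    ext k
    simp [Matrix.trace, mapM, map_sum, S.int, polyD_coeff]

variable {n}

/-- the Chern number of a matrix -/
noncomputable def phi (e : Matrix n n B) : ℂ := (S.mat n).phi e

theorem evalM_mul (a : B) (M N : Matrix n n B[X]) :
    (M * N).map (Polynomial.eval a) = M.map (Polynomial.eval a) * N.map (Polynomial.eval a) := by
  ext i j
  simp [Matrix.mul_apply, Polynomial.eval_finsetSum]

theorem eval_one_coeff (q : B[X]) (N : ℕ) (h : q.natDegree < N) :
    q.eval 1 = ∑ k ∈ Finset.range N, q.coeff k := by
  rw [Polynomial.eval_eq_sum_range' h]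
  simp

theorem D_one (i : Fin 4) : S.D i 1 = 0 := by
  have := S.leib i 1 1
  simp only [mul_one, one_mul] at this
  exact left_eq_add.1 this

theorem D_eval0 (i : Fin 4) (q : B[X]) : S.D i (q.eval 0) = (polyD (S.D i) q).eval 0 := by
  rw [← Polynomial.coeff_zero_eq_eval_zero, ← Polynomial.coeff_zero_eq_eval_zero, polyD_coeff]

theorem D_eval1 (i : Fin 4) (q : B[X]) : S.D i (q.eval 1) = (polyD (S.D i) q).eval 1 := by
  rw [eval_one_coeff q (max q.natDegree (polyD (S.D i) q).natDegree + 1) (by omega),
    eval_one_coeff (polyD (S.D i) q) (max q.natDegree (polyD (S.D i) q).natDegree + 1) (by omega),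
    map_sum]
  simp only [polyD_coeff]

/-- the polynomial form -/
theorem phi_eval {e : Matrix n n B[X]} (he : e * e = e) :
    S.phi (e.map (Polynomial.eval 0)) = S.phi (e.map (Polynomial.eval 1)) := by
  -- the derivation with respect to the variable
  set δ : Matrix n n B[X] →+ Matrix n n B[X] := mapM n (Polynomial.derivative (R := B)).toAddMonoidHom
    with hδ
  have hv := (S.matX n).vari he δ
    (mapM_leib _ (fun x y => by simp [Polynomial.derivative_mul]))
    (fun i x => by
      ext a b k
      simp only [hδ, mapM, matX, AddMonoidHom.coe_mk, ZeroHom.coe_mk, Matrix.map_apply,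
        LinearMap.toAddMonoidHom_coe, Polynomial.coeff_derivative, polyD_coeff]
      have h1 : ∀ (m : ℕ) (y : B), S.D i (y * ((m : B) + 1)) = S.D i y * ((m : B) + 1) := by
        intro m y
        have h2 : y * ((m : B) + 1) = (m + 1) • y := by
          rw [nsmul_eq_mul]; push_cast; ring
        rw [h2, map_nsmul, nsmul_eq_mul]; push_cast; ring
      rw [h1])
  -- the coefficients
  set G : B[X] := alt (fun i j k l => Matrix.trace ((S.matX n).form e i j k l)) with hG
  have hT : ∀ i j k l m, (S.matX n).T (δ ((S.matX n).form e i j k l)) m =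
      (m + 1) • S.τ ((Matrix.trace ((S.matX n).form e i j k l)).coeff (m + 1)) := by
    intro i j k l m
    simp only [matX, AddMonoidHom.coe_mk, ZeroHom.coe_mk, hδ, mapM]
    rw [← map_nsmul]
    congr 1
    simp only [Matrix.trace, Matrix.diag_apply, Matrix.map_apply, LinearMap.toAddMonoidHom_coe,
      Polynomial.finsetSum_coeff, Polynomial.coeff_derivative, Finset.smul_sum, nsmul_eq_mul]
    refine Finset.sum_congr rfl fun x _ => ?_
    push_cast
    ring
  have hGc : ∀ m, S.τ (G.coeff (m + 1)) = 0 := by
    intro m
    have h1 := congrFun hv m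
    have h2 : alt (fun i j k l => (S.matX n).T (δ ((S.matX n).form e i j k l))) m =
        alt (fun i j k l => (S.matX n).T (δ ((S.matX n).form e i j k l)) m) := by
      exact map_alt (Pi.evalAddMonoidHom (fun _ : ℕ => ℂ) m)
        (fun i j k l => (S.matX n).T (δ ((S.matX n).form e i j k l)))
    rw [h2] at h1
    simp only [hT] at h1
    have h3 : alt (fun i j k l => (m + 1) • S.τ ((Matrix.trace ((S.matX n).form e i j k l)).coeff
        (m + 1))) = (m + 1) • S.τ (G.coeff (m + 1)) := by
      have h4 : G.coeff (m + 1) = alt (fun i j k l =>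
          (Matrix.trace ((S.matX n).form e i j k l)).coeff (m + 1)) := by
        rw [hG]
        exact map_alt (Polynomial.lcoeff B (m + 1)).toAddMonoidHom
          (fun i j k l => Matrix.trace ((S.matX n).form e i j k l))
      rw [h4, map_alt S.τ]
      exact (map_alt (nsmulAddMonoidHom (α := ℂ) (m + 1))
        (fun i j k l => S.τ ((Matrix.trace ((S.matX n).form e i j k l)).coeff (m + 1)))).symm
    rw [h3] at h1
    have h5 : ((m + 1 : ℕ) : ℂ) ≠ 0 := by exact_mod_cast Nat.succ_ne_zero m
    rw [nsmul_eq_mul] at h1
    exact (mul_eq_zero.1 h1).resolve_left h5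
  -- the values
  have key : ∀ (a : B), (∀ i q, S.D i (Polynomial.eval a q) = (polyD (S.D i) q).eval a) →
      S.phi (e.map (Polynomial.eval a)) = S.τ (G.eval a) := by
    intro a ha
    have hD : ∀ i, mapM n (S.D i) (e.map (Polynomial.eval a)) =
        (mapM n (polyD (S.D i)) e).map (Polynomial.eval a) := by
      intro i
      ext x y
      simp [mapM, ha]
    have h1 : ∀ i j k l, Matrix.trace ((S.mat n).form (e.map (Polynomial.eval a)) i j k l) =
        (Matrix.trace ((S.matX n).form e i j k l)).eval a := by
      intro i j k l
      have h2 : (S.mat n).form (e.map (Polynomial.eval a)) i j k l =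
          ((S.matX n).form e i j k l).map (Polynomial.eval a) := by
        simp only [NCT.form, mat, matX, hD, ← evalM_mul]
      rw [h2]
      simp [Matrix.trace, Polynomial.eval_finsetSum]
    have h6 : G.eval a = alt (fun i j k l =>
        (Matrix.trace ((S.matX n).form e i j k l)).eval a) := by
      rw [hG]
      exact map_alt (Polynomial.leval a).toAddMonoidHom
        (fun i j k l => Matrix.trace ((S.matX n).form e i j k l))
    rw [h6, map_alt S.τ]
    simp only [← h1]
    rfl
  rw [key 0 (fun i q => S.D_eval0 i q), key 1 (fun i q => S.D_eval1 i q)]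
  rw [eval_one_coeff G (G.natDegree + 1) (by omega), ← Polynomial.coeff_zero_eq_eval_zero, map_sum,
    Finset.sum_range_succ']
  simp [hGc]

/-- a linear path of idempotents -/
theorem phi_lin {e x : Matrix n n B} (he : e * e = e) (hx : x = e * x + x * e)
    (hxx : x * x = 0) : S.phi (e + x) = S.phi e := by
  set p : Matrix n n B[X] := e.map Polynomial.C + (Polynomial.X : B[X]) • x.map Polynomial.C with hp
  have hC : ∀ M N : Matrix n n B, M.map Polynomial.C * N.map Polynomial.C =
      (M * N).map Polynomial.C := by
    intro M N
    exact (Matrix.map_mul (f := (Polynomial.C : B →+* B[X]))).symm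
  have hCa : ∀ M N : Matrix n n B, M.map Polynomial.C + N.map Polynomial.C =
      (M + N).map Polynomial.C := by
    intro M N
    ext i j
    simp
  have hpp : p * p = p := by
    rw [hp]
    simp only [mul_add, add_mul, Matrix.mul_smul, Matrix.smul_mul, hC, he, hxx]
    have h1 : (x * e + e * x) = x := by rw [add_comm]; exact hx.symm
    have h2 : (Polynomial.X : B[X]) • (x * e).map (Polynomial.C) +
        (Polynomial.X : B[X]) • (e * x).map (Polynomial.C) =
        (Polynomial.X : B[X]) • x.map (Polynomial.C) := by
      rw [← smul_add, hCa, h1]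
    have h3 : ((0 : Matrix n n B).map (Polynomial.C : B →+* B[X])) = 0 := by
      ext; simp
    rw [h3, smul_zero, smul_zero, add_zero, add_assoc, h2]
  have h0 : p.map (Polynomial.eval 0) = e := by
    ext i j
    simp [hp]
  have h1 : p.map (Polynomial.eval 1) = e + x := by
    ext i j
    simp [hp]
  have h := S.phi_eval hpp
  rw [h0, h1] at h
  exact h.symm

end

end CBase

end Pool.Agent.Helper31.AC
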